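import Pool.Agent.V1132.CN.Base

set_option autoImplicit false
set_option linter.unusedSectionVars false

/-! The least norm of a class of `K₁(ℤΓ)` is `1` or `3 / √2`. -/

namespace Pool.Agent.V1132.CN

open Matrix TH57.Thr

variable {Γ : Type} [Group Γ]

/-- the set of admissible bounds -/
def critSet {n : ℕ} (A : (Matrix (Fin n) (Fin n) (MonoidAlgebra ℤ Γ))ˣ) : Set ℝ :=
  {c : ℝ | 0 ≤ c ∧ ∃ (m : ℕ)
    (B : (Matrix (Fin (m + 1)) (Fin (m + 1)) (MonoidAlgebra ℤ Γ))ˣ),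
    SameClass A B ∧ NormLE (B : Matrix (Fin (m + 1)) (Fin (m + 1)) (MonoidAlgebra ℤ Γ)) c}

theorem crit_eq {n : ℕ} (A : (Matrix (Fin n) (Fin n) (MonoidAlgebra ℤ Γ))ˣ) :
    crit A = sInf (critSet A) := rfl

theorem critSet_bdd {n : ℕ} (A : (Matrix (Fin n) (Fin n) (MonoidAlgebra ℤ Γ))ˣ) :
    BddBelow (critSet A) := ⟨0, fun _ hc => hc.1⟩

theorem re_trans' {κ κ' κ'' : Type} [Fintype κ] [DecidableEq κ] [Fintype κ']
    [DecidableEq κ'] [Fintype κ''] [DecidableEq κ''] {R : Type} [Ring R] (e : κ ≃ κ') (f : κ' ≃ κ'')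
    (x : (Matrix κ'' κ'' R)ˣ) :
    Units.map (re (e.trans f)) x = Units.map (re e) (Units.map (re f) x) := by
  apply Units.ext
  rfl

theorem re_empty {κ : Type} [Fintype κ] [DecidableEq κ] {R : Type} [Ring R]
    (x : (Matrix κ κ R)ˣ) :
    Units.map (re (Equiv.sumEmpty κ (Fin 0)).symm) (Units.map (stm (Fin 0)) x) = x := by
  apply Units.ext
  rfl

theorem re_self {κ κ' : Type} [Fintype κ] [DecidableEq κ] [Fintype κ']
    [DecidableEq κ'] {R : Type} [Ring R] (e : κ ≃ κ') (x : (Matrix κ κ R)ˣ) :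
    Units.map (re e) (Units.map (re e.symm) x) = x := by
  apply Units.ext
  ext i j
  simp [re]

theorem re_stm_stm {κ μ ν κ' : Type} [Fintype κ] [DecidableEq κ] [Fintype κ']
    [DecidableEq κ'] [Fintype μ] [DecidableEq μ] [Fintype ν] [DecidableEq ν]
    {R : Type} [Ring R] (e1 : κ' ≃ κ ⊕ μ)
    (A : (Matrix κ κ R)ˣ) :
    Units.map (re ((Equiv.sumAssoc κ μ ν).symm.trans (Equiv.sumCongr e1.symm (Equiv.refl ν))))
      (Units.map (stm ν) (Units.map (re e1) (Units.map (stm μ) A)))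
      = Units.map (stm (μ ⊕ ν)) A := by
  apply Units.ext
  ext (i | i | i) (j | j | j) <;> simp [stm, re, Matrix.one_apply]

theorem SC_of_red {κ μ ν κ' κ'' : Type} [Fintype κ] [DecidableEq κ] [Fintype κ']
    [DecidableEq κ'] [Fintype κ''] [DecidableEq κ''] [Fintype μ] [DecidableEq μ] [Fintype ν]
    [DecidableEq ν]
    {R : Type} [Ring R] (e1 : κ' ≃ κ ⊕ μ) (e2 : κ'' ≃ κ' ⊕ ν)
    (A : (Matrix κ κ R)ˣ) (C : (Matrix (κ' ⊕ ν) (κ' ⊕ ν) R)ˣ)
    (hC : C ∈ commutator (Matrix (κ' ⊕ ν) (κ' ⊕ ν) R)ˣ) :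
    SC A (Units.map (re e2) (Units.map (stm ν) (Units.map (re e1) (Units.map (stm μ) A)) * C)) := by
  obtain ⟨e3, he3⟩ : ∃ e3 : κ ⊕ (μ ⊕ ν) ≃ κ' ⊕ ν,
    e3 = (Equiv.sumAssoc _ _ _).symm.trans (Equiv.sumCongr e1.symm (Equiv.refl _)) := ⟨_, rfl⟩
  have hcc : (Units.map (re e3) C)⁻¹ ∈ commutator (Matrix (κ ⊕ (μ ⊕ ν)) (κ ⊕ (μ ⊕ ν)) R)ˣ := by
    apply inv_mem
    have h1 : (commutator (Matrix (κ' ⊕ ν) (κ' ⊕ ν) R)ˣ).map (Units.map (re (R := R) e3))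
      ≤ commutator (Matrix (κ ⊕ (μ ⊕ ν)) (κ ⊕ (μ ⊕ ν)) R)ˣ := by
      rw [commutator_def, Subgroup.map_commutator]
      exact Subgroup.commutator_mono le_top le_top
    exact h1 (Subgroup.mem_map_of_mem _ hC)
  refine ⟨μ ⊕ ν, Fin 0, inferInstance, inferInstance, inferInstance, inferInstance,
    e3.trans (e2.symm.trans (Equiv.sumEmpty _ (Fin 0)).symm), (Units.map (re e3) C)⁻¹,
    hcc, ?_⟩
  rw [re_trans', re_trans', re_empty]
  have h3 := re_self e2.symm (Units.map (stm ν) (Units.map (re e1) (Units.map (stm μ) A)) * C)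
  rw [Equiv.symm_symm] at h3
  rw [h3, map_mul, he3, re_stm_stm, mul_inv_cancel_right]

theorem mem_of_gt {n : ℕ} (A : (Matrix (Fin n) (Fin n) (MonoidAlgebra ℤ Γ))ˣ) (c : ℝ)
    (h0 : 0 ≤ c) (hc : 9 / 2 < c ^ 2) : c ∈ critSet A := by
  refine ⟨h0, ?_⟩
  have e1 : Fin (n + 1) ≃ Fin n ⊕ Fin 1 := finSumFinEquiv.symm
  obtain ⟨m, C, hC, hN⟩ := reduction_fin (n + 1)
    (Units.map (re e1) (Units.map (stm (Fin 1)) A)) c hc
  have e2 : Fin (n + m + 1) ≃ Fin (n + 1) ⊕ Fin m :=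
    (finCongr (by omega)).trans finSumFinEquiv.symm
  have h1 := SC_of_red e1 e2 A C hC
  exact ⟨n + m, _, SC_fin A _ h1, NormLE_re e2 _ c hN⟩

theorem lt_three_sqrt {c : ℝ} (hc : 3 / Real.sqrt 2 < c) : 0 ≤ c ∧ 9 / 2 < c ^ 2 := by
  have hr : 0 < Real.sqrt 2 := Real.sqrt_pos.2 two_pos
  have hr2 : Real.sqrt 2 ^ 2 = 2 := Real.sq_sqrt two_pos.le
  have h0 : 0 < 3 / Real.sqrt 2 := by positivity
  have h1 : (3 / Real.sqrt 2) ^ 2 = 9 / 2 := by rw [div_pow, hr2]; norm_num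
  refine ⟨(h0.trans hc).le, ?_⟩
  rw [← h1]
  exact pow_lt_pow_left₀ hc h0.le two_ne_zero

theorem three_sqrt_le {c : ℝ} (h0 : 0 ≤ c) (hc : 9 / 2 ≤ c ^ 2) : 3 / Real.sqrt 2 ≤ c := by
  have hr : 0 < Real.sqrt 2 := Real.sqrt_pos.2 two_pos
  have hr2 : Real.sqrt 2 ^ 2 = 2 := Real.sq_sqrt two_pos.le
  have h1 : (3 / Real.sqrt 2) ^ 2 = 9 / 2 := by rw [div_pow, hr2]; norm_num
  rw [← h1] at hc
  exact le_of_sq_le_sq hc h0

theorem crit_le {n : ℕ} (A : (Matrix (Fin n) (Fin n) (MonoidAlgebra ℤ Γ))ˣ) :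
    crit A ≤ 3 / Real.sqrt 2 := by
  apply le_of_forall_gt
  intro c hc
  obtain ⟨d, h1, h2⟩ := exists_between hc
  obtain ⟨h3, h4⟩ := lt_three_sqrt h1
  exact (csInf_le (critSet_bdd A) (mem_of_gt A d h3 h4)).trans_lt h2

theorem critSet_nonempty {n : ℕ} (A : (Matrix (Fin n) (Fin n) (MonoidAlgebra ℤ Γ))ˣ) :
    (critSet A).Nonempty := ⟨3, mem_of_gt A 3 (by norm_num) (by norm_num)⟩

theorem one_le_crit {n : ℕ} (A : (Matrix (Fin n) (Fin n) (MonoidAlgebra ℤ Γ))ˣ) :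
    1 ≤ crit A := by
  apply le_csInf (critSet_nonempty A)
  rintro c ⟨h0, m, B, -, hB⟩
  exact one_le_of_norm B c h0 hB

theorem sameClass_unitMat {n : ℕ} (A : (Matrix (Fin n) (Fin n) (MonoidAlgebra ℤ Γ))ˣ)
    (h : Trivial A) : ∃ (g : Γ) (ε : ℤˣ), SameClass A (unitMat g ε) := by
  obtain ⟨m, g, ε, C, hC, hE⟩ := h
  refine ⟨g, ε, ?_⟩
  let e0 : Fin n ⊕ Fin (m + 1) ≃ Fin 1 ⊕ (Fin n ⊕ Fin m) :=
    { toFun := Sum.elim (fun i => Sum.inr (Sum.inl i))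
        (Fin.cases (Sum.inl 0) (fun i => Sum.inr (Sum.inr i)))
      invFun := Sum.elim (fun _ => Sum.inr 0) (Sum.elim Sum.inl (fun i => Sum.inr i.succ))
      left_inv := by
        rintro (i | i)
        · rfl
        · refine Fin.cases ?_ (fun i => ?_) i <;> rfl
      right_inv := by
        rintro (i | i | i)
        · simp [Subsingleton.elim i 0]
        · rfl
        · rfl }
  apply SC_fin
  refine ⟨Fin (m + 1), Fin n ⊕ Fin m, inferInstance, inferInstance, inferInstance,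
    inferInstance, e0, C, hC, ?_⟩
  apply Units.ext
  rw [Units.val_mul]
  change fromBlocks (A : Matrix (Fin n) (Fin n) (MonoidAlgebra ℤ Γ)) 0 0 1 = _
  rw [hE]
  congr 1
  ext (i | i) (j | j)
  · simp [re, stm, e0, Matrix.diagonal_apply, Matrix.one_apply]
  · refine Fin.cases ?_ (fun j => ?_) j <;> simp [re, stm, e0, unitMat]
  · refine Fin.cases ?_ (fun i => ?_) i <;> simp [re, stm, e0, unitMat]
  · refine Fin.cases ?_ (fun i => ?_) i <;> refine Fin.cases ?_ (fun j => ?_) j <;>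
      simp [re, stm, e0, unitMat, Matrix.diagonal_apply, Matrix.one_apply, Fin.succ_ne_zero,
        (Fin.succ_ne_zero _).symm]

theorem crit_of_trivial {n : ℕ} (A : (Matrix (Fin n) (Fin n) (MonoidAlgebra ℤ Γ))ˣ)
    (h : Trivial A) : crit A = 1 := by
  apply le_antisymm _ (one_le_crit A)
  obtain ⟨g, ε, h1⟩ := sameClass_unitMat A h
  exact csInf_le (critSet_bdd A) ⟨zero_le_one, 0, unitMat g ε, h1, norm_unitMat g ε⟩

theorem crit_of_not_trivial (htf : ∀ g : Γ, ∀ k : ℕ, 0 < k → g ^ k = 1 → g = 1) {n : ℕ}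
    (A : (Matrix (Fin n) (Fin n) (MonoidAlgebra ℤ Γ))ˣ)
    (h : ¬ Trivial A) : crit A = 3 / Real.sqrt 2 := by
  apply le_antisymm (crit_le A)
  apply le_csInf (critSet_nonempty A)
  rintro c ⟨h0, m, B, hAB, hB⟩
  by_contra hlt
  push Not at hlt
  have hc : c ^ 2 < 9 / 2 := by
    by_contra hge
    push Not at hge
    exact absurd (three_sqrt_le h0 hge) (not_le.2 hlt)
  have h1 : 1 ≤ c := one_le_of_norm B c h0 hB
  have h2 : TT (TU Γ) B := TT_small htf B c (by linarith) hc hB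
  exact h ((trivial_iff A).2 ((TT_SC (TU Γ) A B (SC_of_fin A B hAB)).2 h2))

end Pool.Agent.V1132.CN
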