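import Mathlib

set_option autoImplicit false
set_option linter.unusedSectionVars false

/-! Stable isomorphism of modules; infima of sets of bounds. -/

namespace Pool.Agent.V1132.CN

section mod

variable {S : Type} [Ring S] {P Q : Type} [AddCommGroup P] [Module S P] [AddCommGroup Q]
  [Module S Q]

/-- `P` is stably free: `P ⊕ S^n ≅ S^m` for some `n, m`. -/
def StablyFree (S : Type) [Ring S] (P : Type) [AddCommGroup P] [Module S P] : Prop :=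
  ∃ n m : ℕ, Nonempty ((P × (Fin n → S)) ≃ₗ[S] (Fin m → S))

/-- `P ⊕ S^a ≅ Q ⊕ S^b` for some `a, b` (for finitely generated projective modules: `P` and `Q`
have the same class in the quotient of `K₀(S)` by the class of `S`). -/
def StablyIso (S : Type) [Ring S] (P : Type) [AddCommGroup P] [Module S P] (Q : Type)
    [AddCommGroup Q] [Module S Q] : Prop :=
  ∃ a b : ℕ, Nonempty ((P × (Fin a → S)) ≃ₗ[S] (Q × (Fin b → S)))

/-- concatenation -/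
def app (S : Type) [Ring S] (a k : ℕ) :
    ((Fin a → S) × (Fin k → S)) ≃ₗ[S] (Fin (a + k) → S) :=
  (LinearEquiv.sumArrowLequivProdArrow (Fin a) (Fin k) S S).symm.trans
    (LinearEquiv.funCongrLeft S S finSumFinEquiv.symm)

theorem StablyIso.stablyFree (h : StablyIso S P Q) (hQ : StablyFree S Q) : StablyFree S P := by
  obtain ⟨a, b, ⟨e⟩⟩ := h
  obtain ⟨k, l, ⟨f⟩⟩ := hQ
  refine ⟨a + k, l + b, ⟨?_⟩⟩
  let e1 : (P × (Fin (a + k) → S)) ≃ₗ[S] (P × ((Fin a → S) × (Fin k → S))) :=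
    (LinearEquiv.refl S P).prodCongr (app S a k).symm
  let e2 : (P × ((Fin a → S) × (Fin k → S))) ≃ₗ[S] ((P × (Fin a → S)) × (Fin k → S)) :=
    (LinearEquiv.prodAssoc S P (Fin a → S) (Fin k → S)).symm
  let e3 : ((P × (Fin a → S)) × (Fin k → S)) ≃ₗ[S] ((Q × (Fin b → S)) × (Fin k → S)) :=
    e.prodCongr (LinearEquiv.refl S (Fin k → S))
  let e4 : ((Q × (Fin b → S)) × (Fin k → S)) ≃ₗ[S] (Q × ((Fin b → S) × (Fin k → S))) :=
    LinearEquiv.prodAssoc S Q (Fin b → S) (Fin k → S)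
  let e5 : (Q × ((Fin b → S) × (Fin k → S))) ≃ₗ[S] (Q × ((Fin k → S) × (Fin b → S))) :=
    (LinearEquiv.refl S Q).prodCongr (LinearEquiv.prodComm S (Fin b → S) (Fin k → S))
  let e6 : (Q × ((Fin k → S) × (Fin b → S))) ≃ₗ[S] ((Q × (Fin k → S)) × (Fin b → S)) :=
    (LinearEquiv.prodAssoc S Q (Fin k → S) (Fin b → S)).symm
  let e7 : ((Q × (Fin k → S)) × (Fin b → S)) ≃ₗ[S] ((Fin l → S) × (Fin b → S)) :=
    f.prodCongr (LinearEquiv.refl S (Fin b → S))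
  exact e1 ≪≫ₗ e2 ≪≫ₗ e3 ≪≫ₗ e4 ≪≫ₗ e5 ≪≫ₗ e6 ≪≫ₗ e7 ≪≫ₗ app S l b

theorem StablyIso.projective (h : StablyIso S P Q) (hP : Module.Projective S P) :
    Module.Projective S Q := by
  obtain ⟨a, b, ⟨e⟩⟩ := h
  have h1 : Module.Projective S (Q × (Fin b → S)) := Module.Projective.of_equiv e
  exact Module.Projective.of_split (LinearMap.inl S Q (Fin b → S)) (LinearMap.fst S Q (Fin b → S))
    (by ext x; rfl)

theorem stablyIso_of_equiv (e : P ≃ₗ[S] Q) : StablyIso S P Q :=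
  ⟨0, 0, ⟨e.prodCongr (LinearEquiv.refl S _)⟩⟩

end mod

theorem sInf_zero {T : Set ℝ} (h : ∀ c ∈ T, 0 ≤ c) (h0 : (0 : ℝ) ∈ T) : sInf T = 0 :=
  le_antisymm (csInf_le ⟨0, h⟩ h0) (le_csInf ⟨0, h0⟩ h)

theorem sInf_le_thr {T : Set ℝ} (h : ∀ c ∈ T, 0 ≤ c) (r : ℝ) (h1 : ∀ c, r < c → c ∈ T) :
    sInf T ≤ r := by
  apply le_of_forall_gt
  intro c hc
  obtain ⟨d, h2, h3⟩ := exists_between hc
  exact (csInf_le ⟨0, h⟩ (h1 d h2)).trans_lt h3

theorem sInf_thr {T : Set ℝ} (h : ∀ c ∈ T, 0 ≤ c) (r : ℝ) (h1 : ∀ c, r < c → c ∈ T)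
    (h2 : ∀ c ∈ T, r ≤ c) : sInf T = r :=
  le_antisymm (sInf_le_thr h r h1) (le_csInf ⟨r + 1, h1 _ (by linarith)⟩ h2)

theorem thr_pos : (0 : ℝ) < 3 / Real.sqrt 2 :=
  div_pos (by norm_num) (Real.sqrt_pos.2 two_pos)

theorem thr_sq : (3 / Real.sqrt 2) ^ 2 = 9 / 2 := by
  rw [div_pow, Real.sq_sqrt two_pos.le]; norm_num

theorem sq_gt_of_gt {c : ℝ} (hc : 3 / Real.sqrt 2 < c) : 0 < c ∧ 9 / 2 < c ^ 2 := by
  refine ⟨thr_pos.trans hc, ?_⟩
  rw [← thr_sq]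
  exact pow_lt_pow_left₀ hc thr_pos.le two_ne_zero

theorem sq_lt_of_lt {c : ℝ} (h0 : 0 ≤ c) (hc : c < 3 / Real.sqrt 2) : c ^ 2 < 9 / 2 := by
  rw [← thr_sq]
  exact pow_lt_pow_left₀ hc h0 two_ne_zero

end Pool.Agent.V1132.CN
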