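import Mathlib

set_option autoImplicit false
set_option linter.unusedSectionVars false
set_option linter.style.haveILetI false

/-! Groups of type FP are torsion-free. -/

namespace V1132.CN.Tors

open MonoidAlgebra

section wp

variable {G : Type} [Group G] (g : G) (n : ℕ)

/-- multiplication by a group element -/
noncomputable abbrev u (h : G) : MonoidAlgebra ℤ G := MonoidAlgebra.of ℤ G h

/-- relatively projective with respect to the cyclic group of order `n` generated by `g` -/
def WP (M : Type) [AddCommGroup M] [Module (MonoidAlgebra ℤ G) M] : Prop :=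
  ∃ E : M →+ M, ∀ x : M, ∑ j ∈ Finset.range n, u (g ^ j) • E (u ((g⁻¹) ^ j) • x) = x

/-- the two exactness properties -/
def V (M : Type) [AddCommGroup M] [Module (MonoidAlgebra ℤ G) M] : Prop :=
  (∀ x : M, u g • x = x → ∃ y : M, ∑ j ∈ Finset.range n, u (g ^ j) • y = x) ∧
  (∀ x : M, ∑ j ∈ Finset.range n, u (g ^ j) • x = 0 → ∃ y : M, u g • y - y = x)

theorem u_mul (a b : G) : u (a * b) = u a * u b := map_mul _ _ _

theorem u_one : u (1 : G) = 1 := map_one _

variable {g n}

theorem fix_pow {M : Type} [AddCommGroup M] [Module (MonoidAlgebra ℤ G) M] {x : M}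
    (h : u g • x = x) (j : ℕ) : u (g ^ j) • x = x := by
  induction j with
  | zero => rw [pow_zero, u_one, one_smul]
  | succ j ih => rw [pow_succ, u_mul, mul_smul, h, ih]

theorem fix_inv {M : Type} [AddCommGroup M] [Module (MonoidAlgebra ℤ G) M] {x : M}
    (h : u g • x = x) : u g⁻¹ • x = x := by
  conv_lhs => rw [← h]
  rw [← mul_smul, ← u_mul, inv_mul_cancel, u_one, one_smul]

theorem div_pow {M : Type} [AddCommGroup M] [Module (MonoidAlgebra ℤ G) M] (z : M) (j : ℕ) :
    ∃ y : M, u g • y - y = u (g ^ j) • z - z := by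
  induction j with
  | zero => exact ⟨0, by rw [pow_zero, u_one, one_smul, smul_zero, sub_self, sub_self]⟩
  | succ j ih =>
    obtain ⟨y, hy⟩ := ih
    refine ⟨y + u (g ^ j) • z, ?_⟩
    rw [pow_succ', u_mul, mul_smul, smul_add]
    have : u g • y = y + (u (g ^ j) • z - z) := by rw [← hy]; abel
    rw [this]
    abel

/-- sums over the inverse powers -/
theorem sum_inv (hn : g ^ n = 1) {M : Type} [AddCommGroup M] [Module (MonoidAlgebra ℤ G) M]
    (x : M) : ∑ j ∈ Finset.range n, u ((g⁻¹) ^ j) • x = ∑ j ∈ Finset.range n, u (g ^ j) • x := by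
  rcases Nat.eq_zero_or_pos n with rfl | hpos
  · simp
  obtain ⟨m, rfl⟩ : ∃ m, n = m + 1 := ⟨n - 1, by omega⟩
  rw [Finset.sum_range_succ', Finset.sum_range_succ', ← Finset.sum_range_reflect]
  rw [pow_zero, pow_zero]
  congr 1
  refine Finset.sum_congr rfl fun j hj => ?_
  rw [Finset.mem_range] at hj
  congr 2
  rw [inv_pow, inv_eq_iff_mul_eq_one, ← pow_add]
  have : m - 1 - j + 1 + (j + 1) = m + 1 := by omega
  rw [this, hn]

theorem V_of_WP (hn : g ^ n = 1) (M : Type) [AddCommGroup M] [Module (MonoidAlgebra ℤ G) M]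
    (h : WP g n M) : V g n M := by
  obtain ⟨E, hE⟩ := h
  refine ⟨fun x hx => ⟨E x, ?_⟩, fun x hx => ?_⟩
  · conv_rhs => rw [← hE x]
    refine Finset.sum_congr rfl fun j _ => ?_
    rw [fix_pow (fix_inv hx)]
  · have hz : ∑ j ∈ Finset.range n, E (u ((g⁻¹) ^ j) • x) = 0 := by
      rw [← map_sum, sum_inv hn, hx, map_zero]
    choose y hy using fun j : ℕ => div_pow (g := g) (E (u ((g⁻¹) ^ j) • x)) j
    refine ⟨∑ j ∈ Finset.range n, y j, ?_⟩
    rw [Finset.smul_sum, ← Finset.sum_sub_distrib]
    simp only [hy]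
    rw [Finset.sum_sub_distrib, hz, sub_zero, hE]

/-- direct summands -/
theorem WP_retract {M N : Type} [AddCommGroup M] [Module (MonoidAlgebra ℤ G) M] [AddCommGroup N]
    [Module (MonoidAlgebra ℤ G) N] (s : M →ₗ[MonoidAlgebra ℤ G] N)
    (p : N →ₗ[MonoidAlgebra ℤ G] M) (hps : ∀ x, p (s x) = x) (h : WP g n N) : WP g n M := by
  obtain ⟨E, hE⟩ := h
  refine ⟨p.toAddMonoidHom.comp (E.comp s.toAddMonoidHom), fun x => ?_⟩
  have h1 := congrArg p (hE (s x))
  rw [map_sum, hps] at h1
  conv_rhs => rw [← h1]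
  refine Finset.sum_congr rfl fun j _ => ?_
  change _ • p (E (s _)) = p (_ • E (_ • s x))
  rw [map_smul s, map_smul p]

theorem WP_pi {ι : Type} (M : Type) [AddCommGroup M] [Module (MonoidAlgebra ℤ G) M]
    (h : WP g n M) : WP g n (ι → M) := by
  obtain ⟨E, hE⟩ := h
  refine ⟨{ toFun := fun x i => E (x i), map_zero' := ?_, map_add' := ?_ }, fun x => ?_⟩
  · funext i; simp
  · intro x y; funext i; simp
  · funext i
    rw [Finset.sum_apply]
    exact hE (x i)

/-- the restriction to a set of representatives of the right cosets -/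
theorem WP_ring (hn : n ≠ 0) (ho : orderOf g = n) : WP g n (MonoidAlgebra ℤ G) := by
  classical
  let R : Set G := {h | Quotient.out (Quotient.mk'' h :
    Quotient (QuotientGroup.rightRel (Subgroup.zpowers g))) = h}
  have hpos : 0 < n := Nat.pos_of_ne_zero hn
  have hex : ∀ h : G, ∃ j, j < n ∧ (g⁻¹) ^ j * h ∈ R ∧
      ∀ i, i < n → (g⁻¹) ^ i * h ∈ R → i = j := by
    intro h
    set q : Quotient (QuotientGroup.rightRel (Subgroup.zpowers g)) := Quotient.mk'' h with hq
    have h1 : QuotientGroup.rightRel (Subgroup.zpowers g) (Quotient.out q) h := by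
      apply Quotient.exact
      rw [Quotient.out_eq]
    rw [QuotientGroup.rightRel_apply] at h1
    -- h * out⁻¹ ∈ zpowers g
    have hfin : IsOfFinOrder g := orderOf_pos_iff.1 (by rw [ho]; exact hpos)
    obtain ⟨j, hj, hj'⟩ := (hfin.mem_zpowers_iff_mem_range_orderOf.1 h1) |> Finset.mem_image.1
    rw [Finset.mem_range, ho] at hj
    have hout : (g⁻¹) ^ j * h = Quotient.out q := by
      rw [inv_pow]
      have hj'' : g ^ j = h * (Quotient.out q)⁻¹ := hj'
      rw [hj'']
      group
    have hqq : ∀ i : ℕ, (Quotient.mk'' ((g⁻¹) ^ i * h) :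
        Quotient (QuotientGroup.rightRel (Subgroup.zpowers g))) = q := by
      intro i
      apply Quotient.sound
      change QuotientGroup.rightRel (Subgroup.zpowers g) _ _
      rw [QuotientGroup.rightRel_apply]
      have : h * ((g⁻¹) ^ i * h)⁻¹ = g ^ i := by group
      rw [this]
      exact Subgroup.npow_mem_zpowers g i
    refine ⟨j, hj, ?_, ?_⟩
    · change Quotient.out (Quotient.mk'' ((g⁻¹) ^ j * h) :
        Quotient (QuotientGroup.rightRel (Subgroup.zpowers g))) = _
      rw [hqq, hout]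
    · intro i hi hi'
      have h2 : Quotient.out q = (g⁻¹) ^ i * h := by rw [← hqq i]; exact hi'
      rw [← hout] at h2
      have h3 : (g⁻¹) ^ j = (g⁻¹) ^ i := mul_right_cancel h2
      rw [inv_pow, inv_pow, inv_inj] at h3
      exact (pow_injOn_Iio_orderOf (by rw [ho]; exact hj) (by rw [ho]; exact hi) h3).symm
  let E : MonoidAlgebra ℤ G →+ MonoidAlgebra ℤ G :=
    { toFun := fun x => .ofCoeff (x.coeff.filter (· ∈ R))
      map_zero' := by
        ext h
        simp [Finsupp.filter_apply]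
      map_add' := fun x y => by
        ext h
        simp [Finsupp.filter_add] }
  have hE : ∀ x h, (E x).coeff h = if h ∈ R then x.coeff h else 0 := fun x h =>
    Finsupp.filter_apply _ _ _
  refine ⟨E, fun x => ?_⟩
  ext h
  obtain ⟨j, hj, hjR, hju⟩ := hex h
  rw [MonoidAlgebra.coeff_sum, Finsupp.finsetSum_apply]
  have key : ∀ i : ℕ, (u (g ^ i) • E (u ((g⁻¹) ^ i) • x)).coeff h
      = if (g⁻¹) ^ i * h ∈ R then x.coeff h else 0 := by
    intro i
    rw [smul_eq_mul, smul_eq_mul]
    change (MonoidAlgebra.single (g ^ i) (1 : ℤ) * E (MonoidAlgebra.single ((g⁻¹) ^ i) (1 : ℤ) * x)).coeff h = _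
    rw [MonoidAlgebra.coeff_single_mul_apply, one_mul, hE, ← inv_pow,
      MonoidAlgebra.coeff_single_mul_apply, one_mul]
    congr 2
    group
  simp only [key]
  rw [Finset.sum_eq_single j]
  · rw [if_pos hjR]
  · intro i hi hij
    rw [if_neg]
    intro hR
    exact hij (hju i (Finset.mem_range.1 hi) hR)
  · intro hj'
    exact absurd (Finset.mem_range.2 hj) hj'

theorem V_proj (hn : n ≠ 0) (ho : orderOf g = n) (P : Type) [AddCommGroup P]
    [Module (MonoidAlgebra ℤ G) P] [Module.Finite (MonoidAlgebra ℤ G) P]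
    [Module.Projective (MonoidAlgebra ℤ G) P] : V g n P := by
  obtain ⟨m, f, hf⟩ := Module.Finite.exists_fin' (MonoidAlgebra ℤ G) P
  obtain ⟨s, hs⟩ := Module.projective_lifting_property f LinearMap.id hf
  exact V_of_WP (by rw [← ho, pow_orderOf_eq_one]) P
    (WP_retract s f (fun x => LinearMap.congr_fun hs x) (WP_pi _ (WP_ring hn ho)))

/-- dimension shifting -/
theorem V_quot (hn : g ^ n = 1) {A B C : Type} [AddCommGroup A] [Module (MonoidAlgebra ℤ G) A]
    [AddCommGroup B] [Module (MonoidAlgebra ℤ G) B] [AddCommGroup C]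
    (i : A →ₗ[MonoidAlgebra ℤ G] B) (hi : Function.Injective i) (p : B →+ C)
    (hp : Function.Surjective p) (hex : ∀ b, p b = 0 ↔ ∃ a, i a = b)
    (hA : V g n A) (hB : V g n B) (a : G → C → C)
    (hpa : ∀ (h : G) b, p (u h • b) = a h (p b)) :
    (∀ x : C, a g x = x → ∃ y : C, ∑ j ∈ Finset.range n, a (g ^ j) y = x) ∧
    (∀ x : C, ∑ j ∈ Finset.range n, a (g ^ j) x = 0 → ∃ y : C, a g y - y = x) := by
  have hshift : ∀ {M : Type} [AddCommGroup M] [Module (MonoidAlgebra ℤ G) M] (b : M),
      u g • (∑ j ∈ Finset.range n, u (g ^ j) • b) = ∑ j ∈ Finset.range n, u (g ^ j) • b := by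
    intro M _ _ b
    rw [Finset.smul_sum]
    simp only [← mul_smul, ← u_mul, ← pow_succ']
    have h1 := Finset.sum_range_succ (fun j => u (g ^ j) • b) n
    have h2 := Finset.sum_range_succ' (fun j => u (g ^ j) • b) n
    rw [h1, hn, pow_zero] at h2
    exact (add_right_cancel h2).symm
  have hshift' : ∀ {M : Type} [AddCommGroup M] [Module (MonoidAlgebra ℤ G) M] (b : M),
      ∑ j ∈ Finset.range n, u (g ^ j) • (u g • b - b) = 0 := by
    intro M _ _ b
    simp only [smul_sub, Finset.sum_sub_distrib]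
    rw [sub_eq_zero]
    have h1 := hshift b
    rw [Finset.smul_sum] at h1
    rw [← h1]
    refine Finset.sum_congr rfl fun j _ => ?_
    rw [← mul_smul, ← mul_smul, ← u_mul, ← u_mul, ← pow_succ, ← pow_succ']
  refine ⟨fun x hx => ?_, fun x hx => ?_⟩
  · obtain ⟨b, rfl⟩ := hp x
    have h1 : p (u g • b - b) = 0 := by rw [map_sub, hpa, hx, sub_self]
    obtain ⟨c, hc⟩ := (hex _).1 h1
    have h2 : ∑ j ∈ Finset.range n, u (g ^ j) • c = 0 := by
      apply hi
      rw [map_sum, map_zero]
      simp only [map_smul, hc]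
      exact hshift' b
    obtain ⟨d, hd⟩ := hA.2 c h2
    have h3 : u g • (b - i d) = b - i d := by
      rw [smul_sub, ← map_smul, sub_eq_sub_iff_sub_eq_sub, ← hc, ← hd, map_sub]
    obtain ⟨y, hy⟩ := hB.1 _ h3
    refine ⟨p y, ?_⟩
    simp only [← hpa]
    rw [← map_sum, hy, map_sub, (hex (i d)).2 ⟨d, rfl⟩, sub_zero]
  · obtain ⟨b, rfl⟩ := hp x
    have h1 : p (∑ j ∈ Finset.range n, u (g ^ j) • b) = 0 := by
      rw [map_sum]
      simp only [hpa]
      exact hx
    obtain ⟨c, hc⟩ := (hex _).1 h1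
    have h2 : u g • c = c := by
      apply hi
      rw [map_smul, hc]
      exact hshift b
    obtain ⟨d, hd⟩ := hA.1 c h2
    have h3 : ∑ j ∈ Finset.range n, u (g ^ j) • (b - i d) = 0 := by
      simp only [smul_sub, Finset.sum_sub_distrib]
      rw [← hc, ← hd, map_sum]
      simp only [map_smul, sub_self]
    obtain ⟨y, hy⟩ := hB.2 _ h3
    refine ⟨p y, ?_⟩
    rw [← hpa, ← map_sub, hy, map_sub, (hex (i d)).2 ⟨d, rfl⟩, sub_zero]

end wp

/-- **A group with a finite projective resolution of finite type is torsion-free.** -/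
theorem torsionFree {G : Type} [Group G] (P : ℕ → Type) [iA : ∀ i, AddCommGroup (P i)]
    [iM : ∀ i, Module (MonoidAlgebra ℤ G) (P i)]
    (d : ∀ i, P (i + 1) →ₗ[MonoidAlgebra ℤ G] P i) (ε : P 0 →+ ℤ) (N : ℕ)
    (h1 : ∀ i, Module.Finite (MonoidAlgebra ℤ G) (P i))
    (h2 : ∀ i, Module.Projective (MonoidAlgebra ℤ G) (P i))
    (h3 : ∀ i, N < i → Subsingleton (P i))
    (h4 : ∀ (g : G) (x : P 0), ε (MonoidAlgebra.of ℤ G g • x) = ε x)
    (h5 : Function.Surjective ε)
    (h6 : ∀ x : P 0, ε x = 0 ↔ x ∈ LinearMap.range (d 0))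
    (h7 : ∀ i, LinearMap.range (d (i + 1)) = LinearMap.ker (d i)) :
    ∀ g : G, IsOfFinOrder g → g = 1 := by
  intro g hg
  by_contra hne
  set n := orderOf g with hn
  have hpos : 0 < n := orderOf_pos_iff.2 hg
  have hn1 : n ≠ 1 := fun h => hne (orderOf_eq_one_iff.1 h)
  have hgn : g ^ n = 1 := pow_orderOf_eq_one g
  have hV : ∀ i, V g n (P i) := fun i => by
    have := h1 i
    have := h2 i
    exact V_proj hpos.ne' rfl (P i)
  -- the images
  have hr : ∀ k i, N < i + k → V g n (LinearMap.range (d i)) := by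
    intro k
    induction k with
    | zero =>
      intro i hi
      have hs : Subsingleton (LinearMap.range (d i)) := by
        have := h3 (i + 1) (by omega)
        refine ⟨?_⟩
        rintro ⟨_, x, rfl⟩ ⟨_, y, rfl⟩
        rw [Subtype.mk.injEq, Subsingleton.elim x y]
      exact ⟨fun x _ => ⟨0, Subsingleton.elim _ _⟩, fun x _ => ⟨0, Subsingleton.elim _ _⟩⟩
    | succ k ih =>
      intro i hi
      have hk := ih (i + 1) (by omega)
      have := V_quot hgn (LinearMap.range (d (i + 1))).subtype (Submodule.subtype_injective _)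
        (d i).rangeRestrict.toAddMonoidHom (LinearMap.surjective_rangeRestrict _) (fun b => by
          change (d i).rangeRestrict b = 0 ↔ _
          rw [← LinearMap.mem_ker, LinearMap.ker_rangeRestrict, ← h7 i]
          constructor
          · intro hb
            exact ⟨⟨b, hb⟩, rfl⟩
          · rintro ⟨a, rfl⟩
            exact a.2) hk (hV (i + 1)) (fun h x => u h • x) (fun h b => by
          change (d i).rangeRestrict (u h • b) = u h • (d i).rangeRestrict b
          rw [map_smul])
      exact this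
  have h0 := hr (N + 1) 0 (by omega)
  have := V_quot hgn (LinearMap.range (d 0)).subtype (Submodule.subtype_injective _) ε h5
    (fun b => by
      rw [h6]
      constructor
      · intro hb
        exact ⟨⟨b, hb⟩, rfl⟩
      · rintro ⟨a, rfl⟩
        exact a.2) h0 (hV 0) (fun _ x => x) (fun h b => h4 h b)
  obtain ⟨y, hy⟩ := this.1 1 rfl
  simp only [Finset.sum_const, Finset.card_range, nsmul_eq_mul] at hy
  have h8 : (n : ℤ) ∣ 1 := ⟨y, hy.symm⟩
  have h9 := Int.natAbs_dvd_natAbs.2 h8
  simp at h9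
  exact hn1 h9

end V1132.CN.Tors
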