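import Pool.Agent.TH57.Thr.Asm
import Pool.Agent.TH57.Thr.Red

set_option autoImplicit false
set_option linter.unusedSectionVars false

/-! The least operator norm in a class of `K₁(ℤΓ)`. -/

namespace Pool.Agent.V1132.CN

open Matrix TH57.Thr

section gen

variable {R : Type} [Ring R] {κ κ' κ'' : Type} [Fintype κ] [DecidableEq κ] [Fintype κ']
  [DecidableEq κ'] [Fintype κ''] [DecidableEq κ'']

/-- same class, with arbitrary finite index types -/
def SC (A : (Matrix κ κ R)ˣ) (B : (Matrix κ' κ' R)ˣ) : Prop :=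
  ∃ (μ ν : Type) (_ : Fintype μ) (_ : DecidableEq μ) (_ : Fintype ν) (_ : DecidableEq ν)
    (e : κ ⊕ μ ≃ κ' ⊕ ν) (C : (Matrix (κ ⊕ μ) (κ ⊕ μ) R)ˣ),
    C ∈ commutator (Matrix (κ ⊕ μ) (κ ⊕ μ) R)ˣ ∧
    Units.map (stm μ) A = Units.map (re e) (Units.map (stm ν) B) * C

theorem TT_re_iff (U : Subgroup Rˣ) (e : κ' ≃ κ) (x : (Matrix κ κ R)ˣ) :
    TT U (Units.map (re e) x) ↔ TT U x := by
  refine ⟨fun h => ?_, TT_re U e x⟩
  have h1 := TT_re U e.symm _ h
  convert h1 using 1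
  apply Units.ext
  ext i j
  simp [re]

theorem TT_SC (U : Subgroup Rˣ) (A : (Matrix κ κ R)ˣ) (B : (Matrix κ' κ' R)ˣ) (h : SC A B) :
    TT U A ↔ TT U B := by
  obtain ⟨μ, ν, i1, i2, i3, i4, e, C, hC, hE⟩ := h
  have hCT : TT U C := TT_of_mem U C (commutator_le_HH U hC)
  constructor
  · intro hA
    apply TT_unst (μ := ν) U
    rw [← TT_re_iff U e]
    have h1 : Units.map (re e) (Units.map (stm ν) B) = Units.map (stm μ) A * C⁻¹ := by
      rw [hE, mul_inv_cancel_right]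
    rw [h1]
    exact TT_mul U _ _ (TT_st U A hA) (TT_inv U C hCT)
  · intro hB
    apply TT_unst (μ := μ) U
    rw [hE]
    exact TT_mul U _ _ (TT_re U e _ (TT_st U B hB)) hCT

end gen

variable {Γ : Type} [Group Γ]

/-- The class of `A` in `K₁(ℤΓ)` is the class of a trivial unit `±g` (the form of the frozen
statement of the problem). -/
def Trivial {n : ℕ} (A : (Matrix (Fin n) (Fin n) (MonoidAlgebra ℤ Γ))ˣ) : Prop :=
  ∃ (m : ℕ) (g : Γ) (ε : ℤˣ)
    (C : (Matrix (Fin n ⊕ Fin (m + 1)) (Fin n ⊕ Fin (m + 1)) (MonoidAlgebra ℤ Γ))ˣ),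
    C ∈ commutator (Matrix (Fin n ⊕ Fin (m + 1)) (Fin n ⊕ Fin (m + 1)) (MonoidAlgebra ℤ Γ))ˣ ∧
    Matrix.fromBlocks (↑A : Matrix (Fin n) (Fin n) (MonoidAlgebra ℤ Γ))
        (0 : Matrix (Fin n) (Fin (m + 1)) (MonoidAlgebra ℤ Γ))
        (0 : Matrix (Fin (m + 1)) (Fin n) (MonoidAlgebra ℤ Γ))
        (1 : Matrix (Fin (m + 1)) (Fin (m + 1)) (MonoidAlgebra ℤ Γ)) =
      Matrix.diagonal (fun i : Fin n ⊕ Fin (m + 1) =>
          if i = Sum.inr (0 : Fin (m + 1)) then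
            (MonoidAlgebra.single g ((ε : ℤ)) : MonoidAlgebra ℤ Γ) else 1) *
        (↑C : Matrix (Fin n ⊕ Fin (m + 1)) (Fin n ⊕ Fin (m + 1)) (MonoidAlgebra ℤ Γ))

/-- `A` and `B` have the same class in `K₁(ℤΓ)`: after adding identity blocks and identifying the
index sets they differ by a product of commutators. -/
def SameClass {n m : ℕ} (A : (Matrix (Fin n) (Fin n) (MonoidAlgebra ℤ Γ))ˣ)
    (B : (Matrix (Fin m) (Fin m) (MonoidAlgebra ℤ Γ))ˣ) : Prop :=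
  ∃ (k l : ℕ) (e : Fin n ⊕ Fin k ≃ Fin m ⊕ Fin l)
    (C : (Matrix (Fin n ⊕ Fin k) (Fin n ⊕ Fin k) (MonoidAlgebra ℤ Γ))ˣ),
    C ∈ commutator (Matrix (Fin n ⊕ Fin k) (Fin n ⊕ Fin k) (MonoidAlgebra ℤ Γ))ˣ ∧
    Matrix.fromBlocks (↑A : Matrix (Fin n) (Fin n) (MonoidAlgebra ℤ Γ))
        (0 : Matrix (Fin n) (Fin k) (MonoidAlgebra ℤ Γ))
        (0 : Matrix (Fin k) (Fin n) (MonoidAlgebra ℤ Γ))
        (1 : Matrix (Fin k) (Fin k) (MonoidAlgebra ℤ Γ)) =
      (Matrix.fromBlocks (↑B : Matrix (Fin m) (Fin m) (MonoidAlgebra ℤ Γ))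
        (0 : Matrix (Fin m) (Fin l) (MonoidAlgebra ℤ Γ))
        (0 : Matrix (Fin l) (Fin m) (MonoidAlgebra ℤ Γ))
        (1 : Matrix (Fin l) (Fin l) (MonoidAlgebra ℤ Γ))).submatrix e e *
      (↑C : Matrix (Fin n ⊕ Fin k) (Fin n ⊕ Fin k) (MonoidAlgebra ℤ Γ))

/-- The least norm in the class of `A`: the infimum of all real numbers `c ≥ 0` such that some
invertible matrix `B` over `ℤΓ`, of some size at least one, has the same class in `K₁(ℤΓ)` as `A`
and operator norm at most `c` on `ℓ²(Γ)`. -/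
noncomputable def crit {n : ℕ} (A : (Matrix (Fin n) (Fin n) (MonoidAlgebra ℤ Γ))ˣ) : ℝ :=
  sInf {c : ℝ | 0 ≤ c ∧ ∃ (m : ℕ)
    (B : (Matrix (Fin (m + 1)) (Fin (m + 1)) (MonoidAlgebra ℤ Γ))ˣ),
    SameClass A B ∧ NormLE (B : Matrix (Fin (m + 1)) (Fin (m + 1)) (MonoidAlgebra ℤ Γ)) c}

theorem SC_fin {n m : ℕ} (A : (Matrix (Fin n) (Fin n) (MonoidAlgebra ℤ Γ))ˣ)
    (B : (Matrix (Fin m) (Fin m) (MonoidAlgebra ℤ Γ))ˣ) (h : SC A B) : SameClass A B := by
  obtain ⟨μ, ν, i1, i2, i3, i4, e, C, hC, hE⟩ := h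
  let a : Fin (Fintype.card μ) ≃ μ := (Fintype.equivFin μ).symm
  let b : Fin (Fintype.card ν) ≃ ν := (Fintype.equivFin ν).symm
  let a' : Fin n ⊕ Fin (Fintype.card μ) ≃ Fin n ⊕ μ := Equiv.sumCongr (Equiv.refl _) a
  let b' : Fin m ⊕ Fin (Fintype.card ν) ≃ Fin m ⊕ ν := Equiv.sumCongr (Equiv.refl _) b
  refine ⟨Fintype.card μ, Fintype.card ν, (a'.trans e).trans b'.symm, Units.map (re a') C,
    comm_re a' C hC, ?_⟩
  have h1 : Units.map (re a') (Units.map (stm μ) A) = Units.map (re a')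
      (Units.map (re e) (Units.map (stm ν) B)) * Units.map (re a') C := by
    rw [hE, map_mul]
  have h2 := congrArg Units.val h1
  rw [Units.val_mul] at h2
  convert h2 using 1
  · ext (i | i) (j | j) <;> simp [stm, re, a', Matrix.one_apply]
  · congr 1
    ext i j
    have h3 : (Matrix.fromBlocks (↑B : Matrix (Fin m) (Fin m) (MonoidAlgebra ℤ Γ))
        (0 : Matrix (Fin m) (Fin (Fintype.card ν)) (MonoidAlgebra ℤ Γ))
        (0 : Matrix (Fin (Fintype.card ν)) (Fin m) (MonoidAlgebra ℤ Γ))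
        (1 : Matrix (Fin (Fintype.card ν)) (Fin (Fintype.card ν)) (MonoidAlgebra ℤ Γ)))
        = (Matrix.fromBlocks (↑B : Matrix (Fin m) (Fin m) (MonoidAlgebra ℤ Γ))
        (0 : Matrix (Fin m) ν (MonoidAlgebra ℤ Γ))
        (0 : Matrix ν (Fin m) (MonoidAlgebra ℤ Γ))
        (1 : Matrix ν ν (MonoidAlgebra ℤ Γ))).submatrix b' b' := by
      ext (i | i) (j | j) <;> simp [b', Matrix.one_apply]
    rw [h3]
    simp [stm, re]

theorem SC_of_fin {n m : ℕ} (A : (Matrix (Fin n) (Fin n) (MonoidAlgebra ℤ Γ))ˣ)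
    (B : (Matrix (Fin m) (Fin m) (MonoidAlgebra ℤ Γ))ˣ) (h : SameClass A B) : SC A B := by
  obtain ⟨k, l, e, C, hC, hE⟩ := h
  exact ⟨Fin k, Fin l, inferInstance, inferInstance, inferInstance, inferInstance, e, C, hC,
    Units.ext hE⟩

theorem trivial_iff {n : ℕ} (A : (Matrix (Fin n) (Fin n) (MonoidAlgebra ℤ Γ))ˣ) :
    Trivial A ↔ TT (TU Γ) A := by
  constructor
  · rintro ⟨m, g, ε, C, hC, hE⟩
    let u : (MonoidAlgebra ℤ Γ)ˣ :=
      ⟨MonoidAlgebra.single g (ε : ℤ), MonoidAlgebra.single g⁻¹ ((ε⁻¹ : ℤˣ) : ℤ),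
        by rw [MonoidAlgebra.single_mul_single]; simp [MonoidAlgebra.one_def],
        by rw [MonoidAlgebra.single_mul_single]; simp [MonoidAlgebra.one_def]⟩
    apply TT_unst (μ := Fin (m + 1)) (TU Γ)
    apply TT_of_mem
    have h1 : Units.map (stm (Fin (m + 1))) A = Units.map (dgm (Sum.inr (0 : Fin (m + 1)))) u * C := by
      apply Units.ext
      rw [Units.val_mul]
      change fromBlocks (A : Matrix (Fin n) (Fin n) (MonoidAlgebra ℤ Γ)) 0 0 1 = _
      rw [hE]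
      congr 1
      change _ = dgm (Sum.inr (0 : Fin (m + 1))) (u : MonoidAlgebra ℤ Γ)
      rw [dgm_apply]
      congr 1
      funext i
      by_cases h : i = Sum.inr (0 : Fin (m + 1))
      · subst h; simp [u]
      · rw [if_neg h, Function.update_of_ne h]; rfl
    rw [h1]
    exact mul_mem (dgm_mem_HH _ _ _ ⟨g, ε, rfl⟩) (commutator_le_HH _ hC)
  · exact TT_frozen n A

/-! ### Norms -/

theorem normSq_row {κ : Type} [Fintype κ] [DecidableEq κ]
    (A : Matrix κ κ (MonoidAlgebra ℤ Γ)) (i : κ) :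
    (Pi.single i (1 : MonoidAlgebra ℝ Γ)) ᵥ* toReal A = toReal A i := by
  funext j
  simp [Matrix.vecMul, dotProduct, Pi.single_apply]

theorem normSq_single_one {κ : Type} [Fintype κ] [DecidableEq κ] (i : κ) :
    normSq (Pi.single i (1 : MonoidAlgebra ℝ Γ) : κ → MonoidAlgebra ℝ Γ) = 1 := by
  unfold normSq
  rw [Finset.sum_eq_single i]
  · rw [Pi.single_eq_same]
    rw [sum_sq_of_support_subset _ {1}]
    · simp [MonoidAlgebra.one_def]
    · intro g hg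
      rw [Finsupp.mem_support_iff] at hg
      rw [Finset.mem_singleton]
      by_contra hne
      apply hg
      simp [MonoidAlgebra.one_def, Finsupp.single_apply, Ne.symm hne]
  · intro j _ hj
    rw [Pi.single_eq_of_ne hj]
    simp
  · simp

theorem one_le_of_norm {m : ℕ} (B : (Matrix (Fin (m + 1)) (Fin (m + 1)) (MonoidAlgebra ℤ Γ))ˣ)
    (c : ℝ) (h0 : 0 ≤ c)
    (hB : NormLE (B : Matrix (Fin (m + 1)) (Fin (m + 1)) (MonoidAlgebra ℤ Γ)) c) : 1 ≤ c := by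
  have h1 := hB (Pi.single 0 1)
  rw [normSq_single_one, normSq_row, mul_one] at h1
  obtain ⟨j, hj⟩ : ∃ j, (B : Matrix (Fin (m + 1)) (Fin (m + 1)) (MonoidAlgebra ℤ Γ)) 0 j ≠ 0 := by
    by_contra hcon
    push Not at hcon
    have h2 := congrFun (congrFun (Units.mul_inv B) 0) 0
    rw [Matrix.mul_apply, Matrix.one_apply_eq] at h2
    rw [Finset.sum_eq_zero fun j _ => by rw [hcon j, zero_mul]] at h2
    exact zero_ne_one h2
  obtain ⟨g, hg⟩ : ∃ g, ((B : Matrix (Fin (m + 1)) (Fin (m + 1)) (MonoidAlgebra ℤ Γ)) 0 j).coeff g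
      ≠ 0 := by
    by_contra hcon
    push Not at hcon
    apply hj
    ext g
    simpa using hcon g
  have h3 : 1 ≤ normSq (toReal (B : Matrix (Fin (m + 1)) (Fin (m + 1)) (MonoidAlgebra ℤ Γ)) 0) := by
    unfold normSq
    refine le_trans ?_ (Finset.single_le_sum (f := fun j => ∑ g ∈ ((toReal
      (B : Matrix (Fin (m + 1)) (Fin (m + 1)) (MonoidAlgebra ℤ Γ)) 0) j).coeff.support,
      ((toReal (B : Matrix (Fin (m + 1)) (Fin (m + 1)) (MonoidAlgebra ℤ Γ)) 0) j).coeff g ^ 2)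
      (fun _ _ => Finset.sum_nonneg fun _ _ => sq_nonneg _) (Finset.mem_univ j))
    refine le_trans ?_ (sum_sq_le _ {g})
    rw [Finset.sum_singleton]
    have h4 : ((toReal (B : Matrix (Fin (m + 1)) (Fin (m + 1)) (MonoidAlgebra ℤ Γ)) 0) j).coeff g
        = ((((B : Matrix (Fin (m + 1)) (Fin (m + 1)) (MonoidAlgebra ℤ Γ)) 0 j).coeff g : ℤ) : ℝ) := by
      simp [toReal]
    rw [h4]
    have h5 : 1 ≤ (((B : Matrix (Fin (m + 1)) (Fin (m + 1)) (MonoidAlgebra ℤ Γ)) 0 j).coeff g) ^ 2 := by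
      rcases Int.lt_or_gt_of_ne hg with h | h <;> nlinarith
    exact_mod_cast h5
  have h6 : 1 ≤ c ^ 2 := h3.trans h1
  nlinarith

theorem normLE_mono {κ : Type} [Fintype κ] (A : Matrix κ κ (MonoidAlgebra ℤ Γ)) (c d : ℝ)
    (h0 : 0 ≤ c) (h : c ≤ d) (hA : NormLE A c) : NormLE A d := fun x =>
  (hA x).trans (mul_le_mul_of_nonneg_right (by nlinarith) (by
    unfold normSq
    exact Finset.sum_nonneg fun _ _ => Finset.sum_nonneg fun _ _ => sq_nonneg _))

/-- the `1 × 1` matrix of a trivial unit -/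
noncomputable def unitMat (g : Γ) (ε : ℤˣ) : (Matrix (Fin 1) (Fin 1) (MonoidAlgebra ℤ Γ))ˣ :=
  ⟨Matrix.diagonal fun _ => MonoidAlgebra.single g (ε : ℤ),
    Matrix.diagonal fun _ => MonoidAlgebra.single g⁻¹ ((ε⁻¹ : ℤˣ) : ℤ),
    by
      rw [Matrix.diagonal_mul_diagonal]
      simp [MonoidAlgebra.single_mul_single, ← MonoidAlgebra.one_def],
    by
      rw [Matrix.diagonal_mul_diagonal]
      simp [MonoidAlgebra.single_mul_single, ← MonoidAlgebra.one_def]⟩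

theorem norm_unitMat (g : Γ) (ε : ℤˣ) :
    NormLE (unitMat g ε : Matrix (Fin 1) (Fin 1) (MonoidAlgebra ℤ Γ)) 1 := by
  classical
  intro x
  rw [one_pow, one_mul]
  unfold normSq
  rw [Fin.sum_univ_one, Fin.sum_univ_one]
  have h1 : (x ᵥ* toReal (unitMat g ε : Matrix (Fin 1) (Fin 1) (MonoidAlgebra ℤ Γ))) 0
      = x 0 * MonoidAlgebra.single g ((ε : ℤ) : ℝ) := by
    simp [Matrix.vecMul, dotProduct, toReal, unitMat]
  rw [h1]
  have hε : (((ε : ℤ) : ℝ)) ^ 2 = 1 := by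
    rcases Int.units_eq_one_or ε with rfl | rfl <;> norm_num
  rw [sum_sq_of_support_subset (x 0 * MonoidAlgebra.single g ((ε : ℤ) : ℝ))
    ((x 0).coeff.support.map (mulRightEmbedding g))]
  · rw [Finset.sum_map]
    refine le_of_eq (Finset.sum_congr rfl fun h _ => ?_)
    rw [MonoidAlgebra.coeff_mul_single_apply, mul_pow, hε]
    simp [mulRightEmbedding]
  · intro h hh
    rw [Finsupp.mem_support_iff, MonoidAlgebra.coeff_mul_single_apply] at hh
    rw [Finset.mem_map]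
    refine ⟨h * g⁻¹, ?_, by simp [mulRightEmbedding]⟩
    rw [Finsupp.mem_support_iff]
    exact left_ne_zero_of_mul hh

end Pool.Agent.V1132.CN
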