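import Pool.Agent.TH6.PF.KMod
import Pool.Agent.TH57.FF.Bd

set_option autoImplicit false
set_option linter.unusedSectionVars false
set_option linter.style.haveILetI false

/-! Boundary matrices with a support pattern of small norm in free resolutions of the trivial
module. -/

namespace V1132.CN.Bnd

open Matrix TH57.Thr TH57.FF TH6.PF

section below

variable {Γ : Type} [Group Γ]

/-- Matrices over the integral group ring of a torsion-free group whose support pattern has norm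
less than `3 / √2` have cokernels with finite free resolutions. -/
theorem Res_thin (htf : ∀ g : Γ, ∀ k : ℕ, 0 < k → g ^ k = 1 → g = 1) {ι κ : Type} [Fintype κ]
    [DecidableEq κ] [Fintype ι] [DecidableEq ι]
    (A : Matrix ι κ (MonoidAlgebra ℤ Γ)) (c : ℝ) (hc0 : 0 < c) (hc : c ^ 2 < 9 / 2)
    (hA : ThinLE A c) : Res 2 A := by
  obtain ⟨ρ, u, C, hC, hst⟩ := structure_thm htf (pat A) c hc0 hc hA
  set P := dgu (fun i => u (Sum.inl i)) with hP
  set Q := dgu (fun j => u (Sum.inr j)) with hQ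
  set B : Matrix ι κ (MonoidAlgebra ℤ Γ) := P.val * A * Q⁻¹.val with hBdef
  have hB : ∀ i j, B i j = MonoidAlgebra.single (u (Sum.inl i)) 1 * A i j
        * MonoidAlgebra.single (u (Sum.inr j))⁻¹ 1 := by
    intro i j
    change (Matrix.diagonal (fun i => MonoidAlgebra.single (u (Sum.inl i)) (1 : ℤ))
      * A * Matrix.diagonal (fun j => MonoidAlgebra.single (u (Sum.inr j))⁻¹ (1 : ℤ)) :
        Matrix ι κ (MonoidAlgebra ℤ Γ)) i j = _
    rw [Matrix.mul_diagonal, Matrix.diagonal_mul]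
  have hBc : ∀ i j g, (B i j).coeff g ≠ 0 →
      ρ (Sum.inl i) = ρ (Sum.inr j) ∧ g ∈ C (ρ (Sum.inl i)) := by
    intro i j g hg
    rw [hB, MonoidAlgebra.coeff_mul_single_apply, MonoidAlgebra.coeff_single_mul_apply, one_mul,
      mul_one, inv_inv] at hg
    have h1 := hst i j _ ((pat_ne A i j _).2 hg)
    refine ⟨h1.1, ?_⟩
    have h2 := h1.2
    have h3 : u (Sum.inl i) * ((u (Sum.inl i))⁻¹ * (g * u (Sum.inr j))) * (u (Sum.inr j))⁻¹
        = g := by group
    rwa [h3] at h2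
  have h1 : Res 2 B := Res_pattern htf _ ι κ le_rfl _ (fun i => ρ (Sum.inl i))
    (fun j => ρ (Sum.inr j)) C hC B hBc
  have h2 : Res 2 (P⁻¹.val * B) := Res_left 2 B P⁻¹.val P.val P.inv_mul P.mul_inv h1
  have h3 : Res 2 (P⁻¹.val * B * Q.val) := Res_right 2 _ Q.val Q⁻¹.val Q.mul_inv h2
  have h4 : P⁻¹.val * B * Q.val = A := by
    have hPP : P⁻¹.val * P.val = 1 := P.inv_mul
    have hQQ : Q⁻¹.val * Q.val = 1 := Q.inv_mul
    calc P⁻¹.val * B * Q.val = (P⁻¹.val * P.val) * A * (Q⁻¹.val * Q.val) := by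
          rw [hBdef]; simp only [Matrix.mul_assoc]
      _ = A := by rw [hPP, hQQ, Matrix.mul_one, Matrix.one_mul]
  rwa [h4] at h3

theorem thin_boundary (htf : ∀ g : Γ, ∀ k : ℕ, 0 < k → g ^ k = 1 → g = 1)
    (n : ℕ) {m k : ℕ} (A : Matrix (Fin m) (Fin k) (MonoidAlgebra ℤ Γ)) (h : Bd Γ n A)
    (c : ℝ) (hc0 : 0 < c) (hc : c ^ 2 < 9 / 2) (hA : ThinLE A c) : FFle Γ (n + 3) := by
  have h1 := FFle_of_FR n A h 2 (FR_of_Res 2 A (Res_thin htf A c hc0 hc hA))
  have h2 : 2 + n + 1 = n + 3 := by ring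
  rwa [h2] at h1

end below

section red

theorem core_thin {G : Type} [Group G] {m k : ℕ} (A : Matrix (Fin m) (Fin k) (MonoidAlgebra ℤ G))
    (c : ℝ) (hc : 9 / 2 < c ^ 2) :
    ∃ (m' k' : ℕ) (A' : Matrix (Fin m') (Fin k') (MonoidAlgebra ℤ G))
      (T : Matrix (Fin k') (Fin k) (MonoidAlgebra ℤ G))
      (S : Matrix (Fin k) (Fin k') (MonoidAlgebra ℤ G)), ThinLE A' c ∧ S * T = 1 ∧
      ∀ v : Fin k' → MonoidAlgebra ℤ G, (∃ y : Fin m → MonoidAlgebra ℤ G, y ᵥ* A = v ᵥ* T) ↔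
        ∃ y : Fin m' → MonoidAlgebra ℤ G, y ᵥ* A' = v := by
  have hr0 : 0 < Real.sqrt 2 := Real.sqrt_pos.2 two_pos
  have hr : Real.sqrt 2 ^ 2 = 2 := Real.sq_sqrt two_pos.le
  set r := Real.sqrt 2 with hrd
  have hc0 : 0 < |c| := by
    rw [abs_pos]; rintro rfl; norm_num at hc
  have hγ : 3 < |c| * r := by
    have h1 : 3 ^ 2 < (|c| * r) ^ 2 := by
      rw [mul_pow, sq_abs, hr]; linarith
    exact lt_of_pow_lt_pow_left₀ 2 (by positivity) h1
  obtain ⟨q, i1, i2, X, Y, Z, W, hZ, hZW, hWZ, hB, hcard, hN⟩ := mod_all hr0 hr hγ A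
  set M : Matrix (Fin m ⊕ q) (Fin k ⊕ q) (MonoidAlgebra ℤ G) := fromBlocks 0 X Y Z with hM
  have hNc : NormLE (pat M) |c| := by
    refine normLE_of_ip' _ |c| hc0 fun v v' => ?_
    rw [hM, ip_blocks']
    have h1 := hN (v ∘ Sum.inl) (v' ∘ Sum.inl) (v' ∘ Sum.inr) (v ∘ Sum.inr)
    have n1 := normSq_nonneg (v ∘ Sum.inl)
    have n2 := normSq_nonneg (v' ∘ Sum.inl)
    refine le_of_mul_le_mul_left ?_ hr0
    rw [normSq_sum v, normSq_sum v']
    nlinarith
  have hNc' : NormLE (pat M) c := by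
    intro v
    have := hNc v
    rwa [sq_abs] at this
  let e : Fin (m + Fintype.card q) ≃ Fin m ⊕ q :=
    finSumFinEquiv.symm.trans (Equiv.sumCongr (Equiv.refl _) (Fintype.equivFin q).symm)
  let e' : Fin (k + Fintype.card q) ≃ Fin k ⊕ q :=
    finSumFinEquiv.symm.trans (Equiv.sumCongr (Equiv.refl _) (Fintype.equivFin q).symm)
  let T : Matrix (Fin k ⊕ q) (Fin k) (MonoidAlgebra ℤ G) := fromRows 1 (-(W * Y))
  let S : Matrix (Fin k) (Fin k ⊕ q) (MonoidAlgebra ℤ G) := fromCols 1 0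
  have hST : S * T = 1 := by
    rw [Matrix.fromCols_mul_fromRows]
    simp
  have hT : ∀ w : Fin k ⊕ q → MonoidAlgebra ℤ G,
      w ᵥ* T = w ∘ Sum.inl - (w ∘ Sum.inr) ᵥ* (W * Y) := by
    intro w
    rw [Matrix.vecMul_fromRows, Matrix.vecMul_one, Matrix.vecMul_neg, ← sub_eq_add_neg]
  have hMM : ∀ x : Fin m ⊕ q → MonoidAlgebra ℤ G, x ᵥ* M
      = Sum.elim ((x ∘ Sum.inr) ᵥ* Y) ((x ∘ Sum.inl) ᵥ* X + (x ∘ Sum.inr) ᵥ* Z) := by
    intro x
    conv_lhs => rw [← Sum.elim_comp_inl_inr x]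
    rw [hM, Matrix.vecMul_fromBlocks]
    simp
  have hXWY : X * (W * Y) = -A := by rw [← hB, neg_neg, Matrix.mul_assoc]
  have key : ∀ v : Fin k ⊕ q → MonoidAlgebra ℤ G,
      (∃ y : Fin m → MonoidAlgebra ℤ G, y ᵥ* A = v ᵥ* T) ↔
        ∃ y : Fin m ⊕ q → MonoidAlgebra ℤ G, y ᵥ* M = v := by
    intro v
    rw [hT]
    constructor
    · rintro ⟨a, ha⟩
      set b := (v ∘ Sum.inr - a ᵥ* X) ᵥ* W with hb
      refine ⟨Sum.elim a b, ?_⟩
      rw [hMM, Sum.elim_comp_inl, Sum.elim_comp_inr]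
      have h1 : b ᵥ* Z = v ∘ Sum.inr - a ᵥ* X := by
        rw [hb, Matrix.vecMul_vecMul, hWZ, Matrix.vecMul_one]
      have h2 : b ᵥ* Y = v ∘ Sum.inl := by
        rw [hb, Matrix.vecMul_vecMul, Matrix.sub_vecMul, Matrix.vecMul_vecMul, hXWY,
          Matrix.vecMul_neg, ha]
        abel
      rw [h1, h2, add_sub_cancel, Sum.elim_comp_inl_inr]
    · rintro ⟨x, rfl⟩
      refine ⟨x ∘ Sum.inl, ?_⟩
      rw [hMM, Sum.elim_comp_inl, Sum.elim_comp_inr, Matrix.add_vecMul, Matrix.vecMul_vecMul,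
        Matrix.vecMul_vecMul, hXWY, ← Matrix.mul_assoc Z, hZW, Matrix.one_mul, Matrix.vecMul_neg]
      abel
  refine ⟨m + Fintype.card q, k + Fintype.card q, M.submatrix e e',
    T.submatrix e' (Equiv.refl _), S.submatrix (Equiv.refl _) e',
    NormLE_re3 e e' (pat M) c hNc', ?_, ?_⟩
  · rw [Matrix.submatrix_mul_equiv, hST]
    rfl
  · intro v
    have h1 : v ᵥ* T.submatrix e' (Equiv.refl _) = (v ∘ e'.symm) ᵥ* T := by
      rw [vecMul_submatrix_equiv]
      rfl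
    rw [h1, key]
    constructor
    · rintro ⟨y, hy⟩
      refine ⟨y ∘ e, ?_⟩
      rw [vecMul_submatrix_equiv]
      have h3 : (y ∘ e) ∘ e.symm = y := by
        funext j
        simp
      rw [h3, hy]
      funext j
      simp
    · rintro ⟨y, hy⟩
      refine ⟨y ∘ e.symm, ?_⟩
      rw [vecMul_submatrix_equiv] at hy
      rw [← hy]
      funext j
      simp

theorem Bd_thin {G : Type} [Group G] (n : ℕ) {m k : ℕ}
    (A : Matrix (Fin m) (Fin k) (MonoidAlgebra ℤ G)) (h : Bd G n A) (c : ℝ) (hc : 9 / 2 < c ^ 2) :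
    ∃ (m' k' : ℕ) (A' : Matrix (Fin m') (Fin k') (MonoidAlgebra ℤ G)), Bd G n A' ∧ ThinLE A' c := by
  obtain ⟨m', k', A', T, S, hN, hST, hT⟩ := core_thin A c hc
  refine ⟨m', k', A', ?_, hN⟩
  cases n with
  | zero =>
    obtain ⟨ε, h1, h2, h3⟩ := h
    refine ⟨ε.comp T.vecMulLinear.toAddMonoidHom, ?_, ?_, ?_⟩
    · intro g x
      change ε ((MonoidAlgebra.of ℤ G g • x) ᵥ* T) = ε (x ᵥ* T)
      rw [Matrix.smul_vecMul, h1]
    · intro z
      obtain ⟨x, hx⟩ := h2 z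
      refine ⟨x ᵥ* S, ?_⟩
      change ε ((x ᵥ* S) ᵥ* T) = z
      rw [Matrix.vecMul_vecMul, hST, Matrix.vecMul_one, hx]
    · intro x
      change ε (x ᵥ* T) = 0 ↔ _
      rw [h3, hT]
  | succ n =>
    obtain ⟨l, B, h1, h2⟩ := h
    refine ⟨l, T * B, ?_, fun x => ?_⟩
    · apply Bd_range n B _ _ h1
      intro x
      constructor
      · rintro ⟨y, rfl⟩
        refine ⟨y ᵥ* S, ?_⟩
        rw [← Matrix.vecMul_vecMul, Matrix.vecMul_vecMul y, hST, Matrix.vecMul_one]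
      · rintro ⟨y, rfl⟩
        exact ⟨y ᵥ* T, Matrix.vecMul_vecMul _ _ _⟩
    · rw [← Matrix.vecMul_vecMul, h2, hT]

end red

section FF

/-- A finite free resolution gives boundary matrices in all degrees, which are empty in large
degrees. -/
theorem Bd_of_FF {G : Type} [Group G] {N : ℕ} (h : FFle G N) :
    ∃ (k : ℕ → ℕ) (D : ∀ i, Matrix (Fin (k (i + 1))) (Fin (k i)) (MonoidAlgebra ℤ G)),
      (∀ i, Bd G i (D i)) ∧ ∀ i, N < i → k i = 0 := by
  obtain ⟨P, iA, iM, d, ε, h1, h2, h3, h4, h5, h6, h7⟩ := h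
  have hb : ∀ i, ∃ n : ℕ, Nonempty (P i ≃ₗ[MonoidAlgebra ℤ G] (Fin n → MonoidAlgebra ℤ G)) := by
    intro i
    have := h1 i
    have := h2 i
    exact ⟨Fintype.card (Module.Free.ChooseBasisIndex (MonoidAlgebra ℤ G) (P i)),
      ⟨((Module.Free.chooseBasis (MonoidAlgebra ℤ G) (P i)).reindex
        (Fintype.equivFin _)).equivFun⟩⟩
  choose k hk using hb
  let e : ∀ i, P i ≃ₗ[MonoidAlgebra ℤ G] (Fin (k i) → MonoidAlgebra ℤ G) := fun i => (hk i).some
  let D : ∀ i, Matrix (Fin (k (i + 1))) (Fin (k i)) (MonoidAlgebra ℤ G) := fun i =>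
    LinearMap.toMatrixRight' ((e i).toLinearMap ∘ₗ d i ∘ₗ (e (i + 1)).symm.toLinearMap)
  have hD : ∀ i x, x ᵥ* D i = e i (d i ((e (i + 1)).symm x)) := by
    intro i x
    have h8 : (D i).vecMulLinear = (e i).toLinearMap ∘ₗ d i ∘ₗ (e (i + 1)).symm.toLinearMap :=
      LinearMap.toMatrixRight'.symm_apply_apply _
    exact LinearMap.congr_fun h8 x
  refine ⟨k, D, ?_, ?_⟩
  · intro i
    induction i with
    | zero =>
      refine ⟨ε.comp (e 0).symm.toLinearMap.toAddMonoidHom, ?_, ?_, ?_⟩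
      · intro g x
        change ε ((e 0).symm (MonoidAlgebra.of ℤ G g • x)) = ε ((e 0).symm x)
        rw [map_smul, h4]
      · intro z
        obtain ⟨x, hx⟩ := h5 z
        refine ⟨e 0 x, ?_⟩
        change ε ((e 0).symm (e 0 x)) = z
        rw [LinearEquiv.symm_apply_apply, hx]
      · intro x
        change ε ((e 0).symm x) = 0 ↔ _
        rw [h6]
        constructor
        · rintro ⟨y, hy⟩
          refine ⟨e 1 y, ?_⟩
          rw [hD]
          change e 0 (d 0 ((e 1).symm (e 1 y))) = x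
          rw [LinearEquiv.symm_apply_apply, hy, LinearEquiv.apply_symm_apply]
        · rintro ⟨y, rfl⟩
          refine ⟨(e 1).symm y, ?_⟩
          rw [hD, LinearEquiv.symm_apply_apply]
    | succ i ih =>
      refine ⟨k i, D i, ih, fun x => ?_⟩
      rw [hD, LinearEquiv.map_eq_zero_iff, ← LinearMap.mem_ker, ← h7 i]
      constructor
      · rintro ⟨y, hy⟩
        refine ⟨e (i + 2) y, ?_⟩
        rw [hD]
        change e (i + 1) (d (i + 1) ((e (i + 2)).symm (e (i + 2) y))) = x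
        rw [LinearEquiv.symm_apply_apply, hy, LinearEquiv.apply_symm_apply]
      · rintro ⟨y, rfl⟩
        refine ⟨(e (i + 2)).symm y, ?_⟩
        rw [hD, LinearEquiv.symm_apply_apply]
  · intro i hi
    have := h3 i hi
    by_contra hne
    have h8 : Subsingleton (Fin (k i) → MonoidAlgebra ℤ G) := (e i).symm.toEquiv.subsingleton
    have h9 := congrFun (Subsingleton.elim (0 : Fin (k i) → MonoidAlgebra ℤ G) 1)
      ⟨0, Nat.pos_of_ne_zero hne⟩
    exact zero_ne_one h9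

end FF

end V1132.CN.Bnd
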