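import Pool.Agent.V1132.CN.Mod
import Pool.Agent.TH6.LF.Blk
import Pool.Agent.TH6.LF.Form1

set_option autoImplicit false
set_option linter.unusedSectionVars false

/-! Stable isometry of quadratic forms over `ℤG` and the least norm of an adjoint. -/

namespace Pool.Agent.V1132.CN

open Matrix TH57.Thr TH6.LF

variable {G : Type} [Group G]

section defs

variable {κ κ' : Type} [Fintype κ] [DecidableEq κ] [Fintype κ'] [DecidableEq κ']

/-- The `ε`-quadratic forms `ψ` and `φ` (matrices modulo the matrices `χ - ε χ*`) become isometric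
after hyperbolic forms have been added to both. -/
def StabIsom (ε : ℤ) (ψ : Matrix κ κ (MonoidAlgebra ℤ G))
    (φ : Matrix κ' κ' (MonoidAlgebra ℤ G)) : Prop :=
  ∃ (μ ν : Type) (_ : Fintype μ) (_ : DecidableEq μ) (_ : Fintype ν) (_ : DecidableEq ν)
    (e : κ ⊕ (μ ⊕ μ) ≃ κ' ⊕ (ν ⊕ ν))
    (P : (Matrix (κ ⊕ (μ ⊕ μ)) (κ ⊕ (μ ⊕ μ)) (MonoidAlgebra ℤ G))ˣ)
    (χ : Matrix (κ ⊕ (μ ⊕ μ)) (κ ⊕ (μ ⊕ μ)) (MonoidAlgebra ℤ G)),
    P.val * addHyp μ ψ * adj P.val = (addHyp ν φ).submatrix e e + (χ - ε • adj χ)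

/-- The form `ψ` is, up to a diagonal change of basis by group elements, an orthogonal sum of forms
induced from cyclic subgroups; these are nonsingular if `ψ` is. -/
def CycForm (ε : ℤ) (ψ : Matrix κ κ (MonoidAlgebra ℤ G)) : Prop :=
  ∃ (ρ : κ → κ) (u : κ → G) (C : κ → Subgroup G)
    (θ : ∀ a, Matrix {i // ρ i = a} {i // ρ i = a} (MonoidAlgebra ℤ (C a)))
    (χ : Matrix κ κ (MonoidAlgebra ℤ G)),
    (∀ a, IsCyclic (C a)) ∧
    Dm u * ψ * adj (Dm u) = indSum ρ C θ + (χ - ε • adj χ) ∧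
    (IsUnit (ψ + ε • adj ψ) → ∀ a, IsUnit (θ a + ε • adj (θ a)))

/-- The form `ψ` is stably isometric to an orthogonal sum of forms induced from cyclic
subgroups. -/
def FromCyc (ε : ℤ) (ψ : Matrix κ κ (MonoidAlgebra ℤ G)) : Prop :=
  ∃ (ι : Type) (_ : Fintype ι) (_ : DecidableEq ι) (φ : Matrix ι ι (MonoidAlgebra ℤ G)),
    StabIsom ε ψ φ ∧ CycForm ε φ

/-- The form `ψ` is stably isometric to a form whose adjoint has norm at most `c`. -/
def HasForm (ε : ℤ) (ψ : Matrix κ κ (MonoidAlgebra ℤ G)) (c : ℝ) : Prop :=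
  ∃ (ι : Type) (_ : Fintype ι) (_ : DecidableEq ι) (φ : Matrix ι ι (MonoidAlgebra ℤ G)),
    StabIsom ε ψ φ ∧ NormLE (φ + ε • adj φ) c

/-- The least norm of the adjoints of the forms stably isometric to `ψ`. -/
noncomputable def formNorm (ε : ℤ) (ψ : Matrix κ κ (MonoidAlgebra ℤ G)) : ℝ :=
  sInf {c : ℝ | 0 ≤ c ∧ HasForm ε ψ c}

end defs

theorem addHyp_empty {κ : Type} [DecidableEq κ] (ψ : Matrix κ κ (MonoidAlgebra ℤ G)) :
    (addHyp (Fin 0) ψ).submatrix (Sum.inl) (Sum.inl) = ψ := rfl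

/-- the index set with empty hyperbolic part -/
def em (κ : Type) : κ ≃ κ ⊕ (Fin 0 ⊕ Fin 0) where
  toFun := Sum.inl
  invFun := Sum.elim id (Sum.elim Fin.elim0 Fin.elim0)
  left_inv := fun i => rfl
  right_inv := by
    rintro (i | i | i)
    · rfl
    · exact i.elim0
    · exact i.elim0

theorem addHyp_em {κ : Type} [DecidableEq κ] (ψ : Matrix κ κ (MonoidAlgebra ℤ G)) :
    (addHyp (Fin 0) ψ).submatrix (em κ) (em κ) = ψ := rfl

section trans

variable {κ κ' μ : Type} [Fintype κ] [DecidableEq κ] [Fintype κ'] [DecidableEq κ']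
  [Fintype μ] [DecidableEq μ]

/-- one reduction step: `φ` is isometric to `ψ` plus a hyperbolic form -/
theorem stabIsom_of_step (ε : ℤ) (ψ : Matrix κ κ (MonoidAlgebra ℤ G))
    (P : (Matrix (κ ⊕ (μ ⊕ μ)) (κ ⊕ (μ ⊕ μ)) (MonoidAlgebra ℤ G))ˣ) :
    StabIsom ε ψ (P.val * addHyp μ ψ * adj P.val) := by
  refine ⟨μ, Fin 0, inferInstance, inferInstance, inferInstance, inferInstance,
    em (κ ⊕ (μ ⊕ μ)), P, 0, ?_⟩
  rw [addHyp_em, adj_zero, smul_zero, sub_zero, add_zero]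

/-- stabilisation of the index set -/
def ax (κ μ ν : Type) : κ ⊕ ((μ ⊕ ν) ⊕ (μ ⊕ ν)) ≃ (κ ⊕ (μ ⊕ μ)) ⊕ (ν ⊕ ν) where
  toFun := Sum.elim (fun i => Sum.inl (Sum.inl i))
    (Sum.elim (Sum.elim (fun i => Sum.inl (Sum.inr (Sum.inl i))) (fun i => Sum.inr (Sum.inl i)))
      (Sum.elim (fun i => Sum.inl (Sum.inr (Sum.inr i))) (fun i => Sum.inr (Sum.inr i))))
  invFun := Sum.elim (Sum.elim Sum.inl (Sum.elim (fun i => Sum.inr (Sum.inl (Sum.inl i)))
      (fun i => Sum.inr (Sum.inr (Sum.inl i)))))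
    (Sum.elim (fun i => Sum.inr (Sum.inl (Sum.inr i))) (fun i => Sum.inr (Sum.inr (Sum.inr i))))
  left_inv := by rintro (i | (i | i) | (i | i)) <;> rfl
  right_inv := by rintro ((i | i | i) | (i | i)) <;> rfl

theorem addHyp_ax {ν : Type} [Fintype ν] [DecidableEq ν] (ψ : Matrix κ κ (MonoidAlgebra ℤ G)) :
    (addHyp ν (addHyp μ ψ)).submatrix (ax κ μ ν) (ax κ μ ν) = addHyp (μ ⊕ ν) ψ := by
  ext1 i j
  rcases i with i | (i | i) | (i | i) <;> rcases j with j | (j | j) | (j | j) <;>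
    simp [addHyp, ax, Matrix.one_apply]

theorem adj_stm {ν : Type} [Fintype ν] [DecidableEq ν]
    (P : Matrix κ κ (MonoidAlgebra ℤ G)) :
    adj (stm ν P) = stm ν (adj P) := by
  change adj (fromBlocks P 0 0 1) = fromBlocks (adj P) 0 0 1
  rw [adj_fromBlocks, adj_zero, adj_one, adj_zero]

theorem addHyp_conj {ν : Type} [Fintype ν] [DecidableEq ν]
    (P φ : Matrix κ κ (MonoidAlgebra ℤ G)) :
    addHyp ν (P * φ * adj P) = stm (ν ⊕ ν) P * addHyp ν φ * adj (stm (ν ⊕ ν) P) := by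
  rw [adj_stm]
  change fromBlocks (P * φ * adj P) 0 0 (fromBlocks 0 1 0 0)
    = fromBlocks P 0 0 1 * fromBlocks φ 0 0 (fromBlocks 0 1 0 0) * fromBlocks (adj P) 0 0 1
  rw [Matrix.fromBlocks_multiply, Matrix.fromBlocks_multiply]
  simp

theorem stabIsom_trans_step (ε : ℤ) (ψ : Matrix κ κ (MonoidAlgebra ℤ G))
    (P : (Matrix (κ ⊕ (μ ⊕ μ)) (κ ⊕ (μ ⊕ μ)) (MonoidAlgebra ℤ G))ˣ)
    (φ : Matrix κ' κ' (MonoidAlgebra ℤ G))
    (h : StabIsom ε (P.val * addHyp μ ψ * adj P.val) φ) : StabIsom ε ψ φ := by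
  obtain ⟨α, β, i1, i2, i3, i4, e, Q, χ, hE⟩ := h
  refine ⟨μ ⊕ α, β, inferInstance, inferInstance, inferInstance, inferInstance,
    (ax κ μ α).trans e, Units.map (re (ax κ μ α)) (Q * Units.map (stm (α ⊕ α)) P),
    χ.submatrix (ax κ μ α) (ax κ μ α), ?_⟩
  have h1 : (Units.map (re (ax κ μ α)) (Q * Units.map (stm (α ⊕ α)) P)).val
      = (Q.val * stm (α ⊕ α) P.val).submatrix (ax κ μ α) (ax κ μ α) := rfl
  rw [h1, ← addHyp_ax, adj_submatrix, Matrix.submatrix_mul_equiv, Matrix.submatrix_mul_equiv,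
    adj_mul]
  have h2 : Q.val * stm (α ⊕ α) P.val * addHyp α (addHyp μ ψ) *
      (adj (stm (α ⊕ α) P.val) * adj Q.val)
      = Q.val * addHyp α (P.val * addHyp μ ψ * adj P.val) * adj Q.val := by
    rw [addHyp_conj]
    simp only [Matrix.mul_assoc]
  rw [h2, hE, adj_submatrix]
  rfl

end trans

/-- every form has stable representatives of norm close to the threshold -/
theorem hasForm {κ : Type} [Fintype κ] [DecidableEq κ] (ε : ℤ) (hε : ε = 1 ∨ ε = -1)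
    (ψ : Matrix κ κ (MonoidAlgebra ℤ G)) (c : ℝ) (hc : 3 / Real.sqrt 2 < c) :
    ∃ (μ : Type) (_ : Fintype μ) (_ : DecidableEq μ)
      (P : (Matrix (κ ⊕ (μ ⊕ μ)) (κ ⊕ (μ ⊕ μ)) (MonoidAlgebra ℤ G))ˣ),
      P ∈ commutator (Matrix (κ ⊕ (μ ⊕ μ)) (κ ⊕ (μ ⊕ μ)) (MonoidAlgebra ℤ G))ˣ ∧
      NormLE (P.val * addHyp μ ψ * adj P.val + ε • adj (P.val * addHyp μ ψ * adj P.val)) c := by
  obtain ⟨q, i1, i2, P, hP, hN⟩ := form_reduction ψ c (sq_gt_of_gt hc).2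
  exact ⟨q, i1, i2, P, hP, hN ε hε⟩

end Pool.Agent.V1132.CN
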