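import Pool.Agent.V1132.CN.Bnd

set_option autoImplicit false
set_option linter.unusedSectionVars false
set_option linter.style.haveILetI false

/-! A group with a resolution of the trivial module by finitely generated projective modules has
partial resolutions of any length by free modules with finite bases. -/

namespace V1132.CN.Bnd

open Matrix TH57.FF

section mods

variable {R : Type} [Ring R]

theorem split_ker {F P : Type} [AddCommGroup F] [Module R F] [AddCommGroup P] [Module R P]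
    (f : F →ₗ[R] P) (s : P →ₗ[R] F) (hs : ∀ x, f (s x) = x) (K : Submodule R P) :
    Nonempty ((K × LinearMap.ker f) ≃ₗ[R] K.comap f) := by
  let h : (K × LinearMap.ker f) →ₗ[R] K.comap f :=
    { toFun := fun x => ⟨s x.1.1 + x.2.1, by
        rw [Submodule.mem_comap, map_add, hs, LinearMap.mem_ker.1 x.2.2, add_zero]
        exact x.1.2⟩
      map_add' := fun x y => by
        apply Subtype.ext
        change s (x.1.1 + y.1.1) + (x.2.1 + y.2.1) = (s x.1.1 + x.2.1) + (s y.1.1 + y.2.1)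
        rw [map_add]
        abel
      map_smul' := fun a x => by
        apply Subtype.ext
        change s (a • x.1.1) + a • x.2.1 = a • (s x.1.1 + x.2.1)
        rw [map_smul, smul_add] }
  refine ⟨LinearEquiv.ofBijective h ⟨?_, ?_⟩⟩
  · intro x y hxy
    have h1 : s x.1.1 + x.2.1 = s y.1.1 + y.2.1 := congrArg Subtype.val hxy
    have h2 := congrArg f h1
    rw [map_add, map_add, hs, hs, LinearMap.mem_ker.1 x.2.2, LinearMap.mem_ker.1 y.2.2, add_zero,
      add_zero] at h2
    rw [h2] at h1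
    exact Prod.ext (Subtype.ext h2) (Subtype.ext (add_left_cancel h1))
  · rintro ⟨x, hx⟩
    refine ⟨(⟨f x, hx⟩, ⟨x - s (f x), ?_⟩), ?_⟩
    · rw [LinearMap.mem_ker, map_sub, hs, sub_self]
    · apply Subtype.ext
      change s (f x) + (x - s (f x)) = x
      abel

theorem ker_fg {m : ℕ} {P : Type} [AddCommGroup P] [Module R P]
    (f : (Fin m → R) →ₗ[R] P) (s : P →ₗ[R] (Fin m → R)) (hs : ∀ x, f (s x) = x) :
    Module.Finite R (LinearMap.ker f) ∧ Module.Projective R (LinearMap.ker f) := by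
  let p : (Fin m → R) →ₗ[R] LinearMap.ker f :=
    LinearMap.codRestrict _ (LinearMap.id - s ∘ₗ f) (fun x => by
      rw [LinearMap.mem_ker]
      change f (x - s (f x)) = 0
      rw [map_sub, hs, sub_self])
  have hp : ∀ x : LinearMap.ker f, p x.1 = x := by
    rintro ⟨x, hx⟩
    apply Subtype.ext
    change x - s (f x) = x
    rw [LinearMap.mem_ker.1 hx, map_zero, sub_zero]
  constructor
  · exact Module.Finite.of_surjective p fun x => ⟨x.1, hp x⟩
  · exact Module.Projective.of_split (LinearMap.ker f).subtype p (LinearMap.ext hp)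

/-- one step of the construction of a free resolution -/
theorem ext_step {k : ℕ} (K : Submodule R (Fin k → R)) (N P Q : Type) [AddCommGroup N]
    [Module R N] [AddCommGroup P] [Module R P] [Module.Finite R P] [Module.Projective R P]
    [AddCommGroup Q] [Module R Q] [Module.Finite R Q] [Module.Projective R Q]
    (π : P →ₗ[R] N) (hπ : Function.Surjective π) (φ : (N × Q) ≃ₗ[R] K) :
    ∃ (m : ℕ) (A : Matrix (Fin m) (Fin k) R) (Q' : Type) (_ : AddCommGroup Q')
      (_ : Module R Q'), Module.Finite R Q' ∧ Module.Projective R Q' ∧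
      LinearMap.range A.vecMulLinear = K ∧
      Nonempty ((LinearMap.ker π × Q') ≃ₗ[R] LinearMap.ker A.vecMulLinear) := by
  obtain ⟨m, f, hf⟩ := Module.Finite.exists_fin' R (P × Q)
  obtain ⟨s, hs⟩ := Module.projective_lifting_property f LinearMap.id hf
  have hs' : ∀ x, f (s x) = x := fun x => LinearMap.congr_fun hs x
  let ψ : (P × Q) →ₗ[R] (N × Q) := LinearMap.prodMap π LinearMap.id
  let g : (Fin m → R) →ₗ[R] (Fin k → R) := K.subtype ∘ₗ φ.toLinearMap ∘ₗ ψ ∘ₗ f
  have hψ : Function.Surjective ψ := by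
    rintro ⟨x, q⟩
    obtain ⟨p, hp⟩ := hπ x
    exact ⟨(p, q), Prod.ext hp rfl⟩
  let A : Matrix (Fin m) (Fin k) R := LinearMap.toMatrixRight' g
  have hA : A.vecMulLinear = g := LinearMap.toMatrixRight'.symm_apply_apply g
  have hkg : LinearMap.ker g = (LinearMap.ker ψ).comap f := by
    ext x
    rw [LinearMap.mem_ker, Submodule.mem_comap, LinearMap.mem_ker]
    change ((φ (ψ (f x)) : K) : Fin k → R) = 0 ↔ _
    rw [ZeroMemClass.coe_eq_zero, LinearEquiv.map_eq_zero_iff]
  refine ⟨m, A, LinearMap.ker f, inferInstance, inferInstance, (ker_fg f s hs').1,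
    (ker_fg f s hs').2, ?_, ?_⟩
  · rw [hA]
    ext x
    constructor
    · rintro ⟨y, rfl⟩
      exact (φ (ψ (f y))).2
    · intro hx
      obtain ⟨y, hy⟩ := hψ (φ.symm ⟨x, hx⟩)
      obtain ⟨z, hz⟩ := hf y
      refine ⟨z, ?_⟩
      change ((φ (ψ (f z)) : K) : Fin k → R) = x
      rw [hz, hy, LinearEquiv.apply_symm_apply]
  · obtain ⟨e1⟩ := split_ker f s hs' (LinearMap.ker ψ)
    let h2 : LinearMap.ker π →ₗ[R] LinearMap.ker ψ :=
      { toFun := fun x => ⟨((x : P), (0 : Q)), Prod.ext (LinearMap.mem_ker.1 x.2) rfl⟩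
        map_add' := fun x y => Subtype.ext (Prod.ext rfl (add_zero (0 : Q)).symm)
        map_smul' := fun a x => Subtype.ext (Prod.ext rfl (smul_zero a).symm) }
    have e2 : LinearMap.ker π ≃ₗ[R] LinearMap.ker ψ := LinearEquiv.ofBijective h2 (by
        constructor
        · intro x y hxy
          exact Subtype.ext (congrArg Prod.fst (congrArg Subtype.val hxy))
        · rintro ⟨⟨p, q⟩, hpq⟩
          have h1 : π p = 0 := congrArg Prod.fst hpq
          have h3 : q = 0 := congrArg Prod.snd hpq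
          exact ⟨⟨p, h1⟩, Subtype.ext (Prod.ext rfl h3.symm)⟩)
    have e3 : ((LinearMap.ker ψ).comap f : Submodule R (Fin m → R)) ≃ₗ[R]
        LinearMap.ker A.vecMulLinear := LinearEquiv.ofEq _ _ (by rw [hA, hkg])
    exact ⟨((LinearEquiv.prodCongr e2 (LinearEquiv.refl R (LinearMap.ker f))).trans e1).trans e3⟩

end mods

theorem Bd_of_FP {G : Type} [Group G] (P : ℕ → Type) [iA : ∀ i, AddCommGroup (P i)]
    [iM : ∀ i, Module (MonoidAlgebra ℤ G) (P i)]
    (d : ∀ i, P (i + 1) →ₗ[MonoidAlgebra ℤ G] P i) (ε : P 0 →+ ℤ)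
    (h1 : ∀ i, Module.Finite (MonoidAlgebra ℤ G) (P i))
    (h2 : ∀ i, Module.Projective (MonoidAlgebra ℤ G) (P i))
    (h4 : ∀ (g : G) (x : P 0), ε (MonoidAlgebra.of ℤ G g • x) = ε x)
    (h5 : Function.Surjective ε)
    (h6 : ∀ x : P 0, ε x = 0 ↔ x ∈ LinearMap.range (d 0))
    (h7 : ∀ i, LinearMap.range (d (i + 1)) = LinearMap.ker (d i)) (n : ℕ) :
    ∃ (m k : ℕ) (A : Matrix (Fin m) (Fin k) (MonoidAlgebra ℤ G)), Bd G n A ∧
      ∃ (Q : Type) (_ : AddCommGroup Q) (_ : Module (MonoidAlgebra ℤ G) Q),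
        Module.Finite (MonoidAlgebra ℤ G) Q ∧ Module.Projective (MonoidAlgebra ℤ G) Q ∧
        Nonempty ((LinearMap.ker (d n) × Q) ≃ₗ[MonoidAlgebra ℤ G]
          LinearMap.ker A.vecMulLinear) := by
  induction n with
  | zero =>
    obtain ⟨k, f, hf⟩ := Module.Finite.exists_fin' (MonoidAlgebra ℤ G) (P 0)
    obtain ⟨s, hs⟩ := Module.projective_lifting_property f LinearMap.id hf
    have hs' : ∀ x, f (s x) = x := fun x => LinearMap.congr_fun hs x
    obtain ⟨e⟩ := split_ker f s hs' (LinearMap.range (d 0))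
    have hk := ker_fg f s hs'
    have := hk.1
    have := hk.2
    obtain ⟨m, A, Q, iQ, iQ', hQ, hQ', hr, ⟨e'⟩⟩ := ext_step _ (LinearMap.range (d 0)) (P 1)
      (LinearMap.ker f) (d 0).rangeRestrict (LinearMap.surjective_rangeRestrict _) e
    refine ⟨m, k, A, ⟨ε.comp f.toAddMonoidHom, ?_, ?_, ?_⟩, Q, iQ, iQ', hQ, hQ', ?_⟩
    · intro g x
      change ε (f (MonoidAlgebra.of ℤ G g • x)) = ε (f x)
      rw [map_smul, h4]
    · intro z
      obtain ⟨x, hx⟩ := h5 z
      obtain ⟨y, hy⟩ := hf x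
      exact ⟨y, by change ε (f y) = z; rw [hy, hx]⟩
    · intro x
      change ε (f x) = 0 ↔ _
      rw [h6, ← Submodule.mem_comap, ← hr]
      rfl
    · refine ⟨(LinearEquiv.prodCongr (LinearEquiv.ofEq _ _ ?_) (LinearEquiv.refl _ _)).trans e'⟩
      rw [LinearMap.ker_rangeRestrict]
  | succ n ih =>
    obtain ⟨m, k, A, hA, Q, iQ, iQ', hQ, hQ', ⟨e⟩⟩ := ih
    let π : P (n + 2) →ₗ[MonoidAlgebra ℤ G] LinearMap.ker (d n) :=
      LinearMap.codRestrict _ (d (n + 1)) (fun x => by
        rw [← h7 n]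
        exact ⟨x, rfl⟩)
    have hπ : Function.Surjective π := by
      rintro ⟨x, hx⟩
      rw [← h7 n] at hx
      obtain ⟨y, hy⟩ := hx
      exact ⟨y, Subtype.ext hy⟩
    obtain ⟨m', A', Q', iR, iR', hR, hR', hr, ⟨e'⟩⟩ := ext_step _ (LinearMap.ker (d n))
      (P (n + 2)) Q π hπ e
    refine ⟨m', m, A', ⟨k, A, hA, fun x => ?_⟩, Q', iR, iR', hR, hR', ?_⟩
    · change x ∈ LinearMap.ker A.vecMulLinear ↔ _
      rw [← hr]
      rfl
    · refine ⟨(LinearEquiv.prodCongr (LinearEquiv.ofEq _ _ ?_) (LinearEquiv.refl _ _)).trans e'⟩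
      ext x
      rw [LinearMap.mem_ker, LinearMap.mem_ker]
      change _ ↔ (⟨d (n + 1) x, _⟩ : LinearMap.ker (d n)) = 0
      rw [Submodule.mk_eq_zero]

end V1132.CN.Bnd
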