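import Pool.Agent.V1132.CN.Main
import Pool.Agent.V1132.CN.Mod
import Pool.Agent.TH6.PF.PK
import Pool.Agent.TH6.PF.PGen
import Pool.Agent.TH6.PF.KSt

set_option autoImplicit false
set_option linter.unusedSectionVars false

/-! Classes of `K₁(RG)` and the least norm of a support pattern. -/

namespace Pool.Agent.V1132.CN

open Matrix TH57.Thr TH6.PF

section gen

variable {S : Type} [Ring S]

/-- `A` and `B` have the same class in `K₁(S)`: after adding identity blocks and identifying the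
index sets they differ by a product of commutators. -/
def SameK {n m : ℕ} (A : (Matrix (Fin n) (Fin n) S)ˣ) (B : (Matrix (Fin m) (Fin m) S)ˣ) : Prop :=
  ∃ (k l : ℕ) (e : Fin n ⊕ Fin k ≃ Fin m ⊕ Fin l)
    (C : (Matrix (Fin n ⊕ Fin k) (Fin n ⊕ Fin k) S)ˣ),
    C ∈ commutator (Matrix (Fin n ⊕ Fin k) (Fin n ⊕ Fin k) S)ˣ ∧
    Matrix.fromBlocks (↑A : Matrix (Fin n) (Fin n) S) (0 : Matrix (Fin n) (Fin k) S)
        (0 : Matrix (Fin k) (Fin n) S) (1 : Matrix (Fin k) (Fin k) S) =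
      (Matrix.fromBlocks (↑B : Matrix (Fin m) (Fin m) S) (0 : Matrix (Fin m) (Fin l) S)
        (0 : Matrix (Fin l) (Fin m) S) (1 : Matrix (Fin l) (Fin l) S)).submatrix e e *
      (↑C : Matrix (Fin n ⊕ Fin k) (Fin n ⊕ Fin k) S)

theorem comm_re' {κ μ : Type} [Fintype κ] [DecidableEq κ] [Fintype μ] [DecidableEq μ]
    (e : μ ≃ κ) (x : (Matrix κ κ S)ˣ)
    (hx : x ∈ commutator (Matrix κ κ S)ˣ) :
    Units.map (re e) x ∈ commutator (Matrix μ μ S)ˣ := by
  have h1 : (commutator (Matrix κ κ S)ˣ).map (Units.map (re (R := S) e))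
      ≤ commutator (Matrix μ μ S)ˣ := by
    rw [commutator_def, Subgroup.map_commutator]
    exact Subgroup.commutator_mono le_top le_top
  exact h1 (Subgroup.mem_map_of_mem _ hx)

theorem SameK_of_SC {n m : ℕ} (A : (Matrix (Fin n) (Fin n) S)ˣ)
    (B : (Matrix (Fin m) (Fin m) S)ˣ) (h : SC A B) : SameK A B := by
  obtain ⟨μ, ν, i1, i2, i3, i4, e, C, hC, hE⟩ := h
  let a : Fin (Fintype.card μ) ≃ μ := (Fintype.equivFin μ).symm
  let b : Fin (Fintype.card ν) ≃ ν := (Fintype.equivFin ν).symm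
  let a' : Fin n ⊕ Fin (Fintype.card μ) ≃ Fin n ⊕ μ := Equiv.sumCongr (Equiv.refl _) a
  let b' : Fin m ⊕ Fin (Fintype.card ν) ≃ Fin m ⊕ ν := Equiv.sumCongr (Equiv.refl _) b
  refine ⟨Fintype.card μ, Fintype.card ν, (a'.trans e).trans b'.symm, Units.map (re a') C,
    comm_re' a' C hC, ?_⟩
  have h1 : Units.map (re a') (Units.map (stm μ) A) = Units.map (re a')
      (Units.map (re e) (Units.map (stm ν) B)) * Units.map (re a') C := by
    rw [hE, map_mul]
  have h2 := congrArg Units.val h1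
  rw [Units.val_mul] at h2
  convert h2 using 1
  · ext (i | i) (j | j) <;> simp [stm, re, a', Matrix.one_apply]
  · congr 1
    ext i j
    have h3 : (Matrix.fromBlocks (↑B : Matrix (Fin m) (Fin m) S)
        (0 : Matrix (Fin m) (Fin (Fintype.card ν)) S)
        (0 : Matrix (Fin (Fintype.card ν)) (Fin m) S)
        (1 : Matrix (Fin (Fintype.card ν)) (Fin (Fintype.card ν)) S))
        = (Matrix.fromBlocks (↑B : Matrix (Fin m) (Fin m) S)
        (0 : Matrix (Fin m) ν S) (0 : Matrix ν (Fin m) S)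
        (1 : Matrix ν ν S)).submatrix b' b' := by
      ext (i | i) (j | j) <;> simp [b', Matrix.one_apply]
    rw [h3]
    simp [stm, re]

theorem SC_of_SameK {n m : ℕ} (A : (Matrix (Fin n) (Fin n) S)ˣ)
    (B : (Matrix (Fin m) (Fin m) S)ˣ) (h : SameK A B) : SC A B := by
  obtain ⟨k, l, e, C, hC, hE⟩ := h
  exact ⟨Fin k, Fin l, inferInstance, inferInstance, inferInstance, inferInstance, e, C, hC,
    Units.ext hE⟩

end gen

variable {R : Type} [Ring R] {G : Type} [Group G]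

/-- The class of `A` lies in the subgroup of `K₁(RG)` which is generated by the images of the
groups `K₁(RV)` of the virtually cyclic subgroups `V` of `G`. -/
def FromVC {n : ℕ} (A : (Matrix (Fin n) (Fin n) (MonoidAlgebra R G))ˣ) : Prop :=
  ∃ (m : ℕ) (B C : (Matrix (Fin n ⊕ Fin m) (Fin n ⊕ Fin m) (MonoidAlgebra R G))ˣ),
    B ∈ VCGen R G (Fin n ⊕ Fin m) ∧
    C ∈ commutator (Matrix (Fin n ⊕ Fin m) (Fin n ⊕ Fin m) (MonoidAlgebra R G))ˣ ∧
    Matrix.fromBlocks (↑A : Matrix (Fin n) (Fin n) (MonoidAlgebra R G))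
        (0 : Matrix (Fin n) (Fin m) (MonoidAlgebra R G))
        (0 : Matrix (Fin m) (Fin n) (MonoidAlgebra R G))
        (1 : Matrix (Fin m) (Fin m) (MonoidAlgebra R G)) =
      (↑B : Matrix (Fin n ⊕ Fin m) (Fin n ⊕ Fin m) (MonoidAlgebra R G)) *
      (↑C : Matrix (Fin n ⊕ Fin m) (Fin n ⊕ Fin m) (MonoidAlgebra R G))

theorem VCGen_stm {κ μ : Type} [Fintype κ] [DecidableEq κ] [Fintype μ] [DecidableEq μ]
    (x : (Matrix κ κ (MonoidAlgebra R G))ˣ) (hx : x ∈ VCGen R G κ) :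
    Units.map (stm μ) x ∈ VCGen R G (κ ⊕ μ) := by
  have h1 : (VCGen R G κ).map (Units.map (stm (R := MonoidAlgebra R G) μ))
      ≤ VCGen R G (κ ⊕ μ) := by
    rw [VCGen, MonoidHom.map_closure, Subgroup.closure_le]
    rintro _ ⟨x, ⟨C, y, hC, hxy⟩, rfl⟩
    refine Subgroup.subset_closure ⟨C, Units.map (stm μ) y, hC, ?_⟩
    change fromBlocks x.val 0 0 1 = (fromBlocks y.val 0 0 1).map _
    rw [Matrix.fromBlocks_map, hxy]
    congr 1
    ext1 i j
    by_cases h : i = j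
    · subst h
      simp [MonoidAlgebra.one_def]
    · simp [Matrix.one_apply_ne h]
  exact h1 (Subgroup.mem_map_of_mem _ hx)

theorem VCGen_re {κ μ : Type} [Fintype κ] [DecidableEq κ] [Fintype μ] [DecidableEq μ]
    (e : μ ≃ κ) (x : (Matrix κ κ (MonoidAlgebra R G))ˣ) (hx : x ∈ VCGen R G κ) :
    Units.map (re e) x ∈ VCGen R G μ := by
  have h1 : (VCGen R G κ).map (Units.map (re (R := MonoidAlgebra R G) e))
      ≤ VCGen R G μ := by
    rw [VCGen, MonoidHom.map_closure, Subgroup.closure_le]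
    rintro _ ⟨x, ⟨C, y, hC, hxy⟩, rfl⟩
    refine Subgroup.subset_closure ⟨C, Units.map (re e) y, hC, ?_⟩
    change x.val.submatrix e e = (y.val.submatrix e e).map _
    rw [hxy]
    rfl
  exact h1 (Subgroup.mem_map_of_mem _ hx)

section stab

variable {κ μ ν : Type} [Fintype κ] [DecidableEq κ] [Fintype μ] [DecidableEq μ]
  [Fintype ν] [DecidableEq ν]

/-- products of matrices over group rings of virtually cyclic subgroups and of commutators -/
noncomputable def WW (κ : Type) [Fintype κ] [DecidableEq κ] (R G : Type) [Ring R] [Group G] :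
    Subgroup (Matrix κ κ (MonoidAlgebra R G))ˣ :=
  VCGen R G κ ⊔ commutator (Matrix κ κ (MonoidAlgebra R G))ˣ

theorem map_comm (f : (Matrix κ κ (MonoidAlgebra R G))ˣ →* (Matrix μ μ (MonoidAlgebra R G))ˣ) :
    (commutator (Matrix κ κ (MonoidAlgebra R G))ˣ).map f
      ≤ commutator (Matrix μ μ (MonoidAlgebra R G))ˣ := by
  rw [commutator_def, Subgroup.map_commutator]
  exact Subgroup.commutator_mono le_top le_top

theorem WW_stm (x : (Matrix κ κ (MonoidAlgebra R G))ˣ) (hx : x ∈ WW κ R G) :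
    Units.map (stm μ) x ∈ WW (κ ⊕ μ) R G := by
  have h1 : (WW κ R G).map (Units.map (stm (R := MonoidAlgebra R G) μ)) ≤ WW (κ ⊕ μ) R G := by
    rw [WW, Subgroup.map_sup]
    refine sup_le_sup ?_ (map_comm _)
    rintro _ ⟨y, hy, rfl⟩
    exact VCGen_stm y hy
  exact h1 (Subgroup.mem_map_of_mem _ hx)

theorem WW_re (e : μ ≃ κ) (x : (Matrix κ κ (MonoidAlgebra R G))ˣ) (hx : x ∈ WW κ R G) :
    Units.map (re e) x ∈ WW μ R G := by
  have h1 : (WW κ R G).map (Units.map (re (R := MonoidAlgebra R G) e)) ≤ WW μ R G := by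
    rw [WW, Subgroup.map_sup]
    refine sup_le_sup ?_ (map_comm _)
    rintro _ ⟨y, hy, rfl⟩
    exact VCGen_re e y hy
  exact h1 (Subgroup.mem_map_of_mem _ hx)

/-- the stable version -/
def TW (x : (Matrix κ κ (MonoidAlgebra R G))ˣ) : Prop :=
  ∃ (μ : Type) (_ : Fintype μ) (_ : DecidableEq μ), Units.map (stm μ) x ∈ WW (κ ⊕ μ) R G

theorem TW_of_mem (x : (Matrix κ κ (MonoidAlgebra R G))ˣ) (hx : x ∈ WW κ R G) : TW x :=
  ⟨Unit, inferInstance, inferInstance, WW_stm x hx⟩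

theorem TW_more (x : (Matrix κ κ (MonoidAlgebra R G))ˣ) (μ : Type) [Fintype μ] [DecidableEq μ]
    (h : Units.map (stm μ) x ∈ WW (κ ⊕ μ) R G) (ν : Type) [Fintype ν] [DecidableEq ν] :
    Units.map (stm (μ ⊕ ν)) x ∈ WW (κ ⊕ (μ ⊕ ν)) R G ∧
    Units.map (stm (ν ⊕ μ)) x ∈ WW (κ ⊕ (ν ⊕ μ)) R G := by
  have h1 := WW_stm (μ := ν) _ h
  constructor
  · have h2 := WW_re (Equiv.sumAssoc κ μ ν).symm _ h1
    convert h2 using 1
    apply Units.ext
    ext (i | i | i) (j | j | j) <;> simp [stm, re, Matrix.one_apply]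
  · let e : (κ ⊕ (ν ⊕ μ)) ≃ ((κ ⊕ μ) ⊕ ν) :=
      { toFun := Sum.elim (fun i => Sum.inl (Sum.inl i))
          (Sum.elim Sum.inr (fun l => Sum.inl (Sum.inr l)))
        invFun := Sum.elim (Sum.elim Sum.inl (fun l => Sum.inr (Sum.inr l)))
          (fun k => Sum.inr (Sum.inl k))
        left_inv := by rintro (i | i | i) <;> rfl
        right_inv := by rintro ((i | i) | i) <;> rfl }
    have h2 := WW_re e _ h1
    convert h2 using 1
    apply Units.ext
    ext (i | i | i) (j | j | j) <;> simp [stm, re, e, Matrix.one_apply]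

theorem TW_mul (x y : (Matrix κ κ (MonoidAlgebra R G))ˣ) (hx : TW x) (hy : TW y) :
    TW (x * y) := by
  obtain ⟨μ, i1, i2, h1⟩ := hx
  obtain ⟨ν, i3, i4, h2⟩ := hy
  refine ⟨μ ⊕ ν, inferInstance, inferInstance, ?_⟩
  rw [map_mul]
  exact mul_mem (TW_more x μ h1 ν).1 (TW_more y ν h2 μ).2

theorem TW_re (e : μ ≃ κ) (x : (Matrix κ κ (MonoidAlgebra R G))ˣ) (hx : TW x) :
    TW (Units.map (re e) x) := by
  obtain ⟨ν, i1, i2, h1⟩ := hx
  refine ⟨ν, inferInstance, inferInstance, ?_⟩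
  have h2 := WW_re (Equiv.sumCongr e (Equiv.refl ν)) _ h1
  convert h2 using 1
  apply Units.ext
  ext (i | i) (j | j) <;> simp [stm, re, Matrix.one_apply]

theorem TW_st (x : (Matrix κ κ (MonoidAlgebra R G))ˣ) (hx : TW x) :
    TW (Units.map (stm μ) x) := by
  obtain ⟨ν, i1, i2, h1⟩ := hx
  refine ⟨ν, inferInstance, inferInstance, ?_⟩
  have h2 := WW_re (Equiv.sumAssoc κ μ ν) _ (TW_more x ν h1 μ).2
  convert h2 using 1
  apply Units.ext
  ext ((i | i) | i) ((j | j) | j) <;> simp [stm, re, Matrix.one_apply]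

theorem TW_unst (x : (Matrix κ κ (MonoidAlgebra R G))ˣ) (hx : TW (Units.map (stm μ) x)) :
    TW x := by
  obtain ⟨ν, i1, i2, h1⟩ := hx
  refine ⟨μ ⊕ ν, inferInstance, inferInstance, ?_⟩
  have h2 := WW_re (Equiv.sumAssoc κ μ ν).symm _ h1
  convert h2 using 1
  apply Units.ext
  ext (i | i | i) (j | j | j) <;> simp [stm, re, Matrix.one_apply]

theorem TW_SC (A : (Matrix κ κ (MonoidAlgebra R G))ˣ) (B : (Matrix μ μ (MonoidAlgebra R G))ˣ)
    (h : SC A B) (hB : TW B) : TW A := by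
  obtain ⟨α, β, i1, i2, i3, i4, e, C, hC, hE⟩ := h
  apply TW_unst (μ := α)
  rw [hE]
  exact TW_mul _ _ (TW_re e _ (TW_st B hB)) (TW_of_mem C (Subgroup.mem_sup_right hC))

end stab

theorem TW_fromVC {n : ℕ} (A : (Matrix (Fin n) (Fin n) (MonoidAlgebra R G))ˣ) (h : TW A) :
    FromVC A := by
  obtain ⟨μ, i1, i2, h1⟩ := h
  let e : Fin n ⊕ Fin (Fintype.card μ) ≃ Fin n ⊕ μ :=
    Equiv.sumCongr (Equiv.refl _) (Fintype.equivFin μ).symm
  have h2 := WW_re e _ h1
  have h3 : Units.map (re e) (Units.map (stm μ) A) = Units.map (stm (Fin (Fintype.card μ))) A := by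
    apply Units.ext
    ext (i | i) (j | j) <;> simp [stm, re, e, Matrix.one_apply]
  rw [h3, WW, Subgroup.mem_sup_of_normal_right] at h2
  obtain ⟨V, hV, C, hC, h4⟩ := h2
  refine ⟨Fintype.card μ, V, C, hV, hC, ?_⟩
  have h5 := congrArg Units.val h4
  exact h5.symm

theorem fromVC_TW {n : ℕ} (A : (Matrix (Fin n) (Fin n) (MonoidAlgebra R G))ˣ) (h : FromVC A) :
    TW A := by
  obtain ⟨m, V, C, hV, hC, h1⟩ := h
  refine ⟨Fin m, inferInstance, inferInstance, ?_⟩
  have h2 : Units.map (stm (Fin m)) A = V * C := Units.ext h1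
  rw [h2]
  exact mul_mem (Subgroup.mem_sup_left hV) (Subgroup.mem_sup_right hC)

end Pool.Agent.V1132.CN
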