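import Pool.Agent.V1132.CN.Mod
import Pool.Agent.TH57.Thr.Dist2
import Pool.Agent.TH6.LF.Blk
import Pool.Agent.TH6.LF.DistF

set_option autoImplicit false
set_option linter.unusedSectionVars false

/-! Nonsingular forms over `ℤG` whose adjoint is close to the hyperbolic form. -/

namespace Pool.Agent.V1132.CN

open Matrix TH57.Thr TH6.LF

variable {G : Type} [Group G] {ι : Type} [Fintype ι] [DecidableEq ι]

/-- the form with `J i (τ i) = s i` -/
noncomputable def Jm (G : Type) [Group G] (τ : ι → ι) (s : ι → ℤ) : Matrix ι ι (MonoidAlgebra ℤ G) :=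
  fun i j => if j = τ i then (s i) • (1 : MonoidAlgebra ℤ G) else 0

/-- the data of the standard form -/
structure Std (ε : ℤ) (τ : ι → ι) (s : ι → ℤ) : Prop where
  inv : ∀ i, τ (τ i) = i
  ne : ∀ i, τ i ≠ i
  sq : ∀ i, s i * s i = 1
  sgn : ∀ i, s (τ i) = ε * s i

/-- the perturbations under consideration -/
structure Pert (ε : ℤ) (E : Matrix ι ι (MonoidAlgebra ℤ G)) : Prop where
  row : RowOne E
  sym : ∀ i j, bar (E i j) = ε • E j i
  even : ∀ i, ∃ y : MonoidAlgebra ℤ G, E i i = y + ε • bar y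

/-- augmentation modulo two -/
noncomputable def au (G : Type) [Group G] : MonoidAlgebra ℤ G →+* ZMod 2 :=
  (Int.castRingHom (ZMod 2)).comp (MonoidAlgebra.lift ℤ ℤ G 1).toRingHom

theorem au_single (g : G) (z : ℤ) : au G (MonoidAlgebra.single g z) = (z : ZMod 2) := by
  simp [au]

theorem exists_pivot {ε : ℤ} (hεε : ε * ε = 1) {τ : ι → ι} {s : ι → ℤ} (hS : Std ε τ s)
    (E : Matrix ι ι (MonoidAlgebra ℤ G)) (hE : Pert ε E) (hne : E ≠ 0)
    (hu : IsUnit (Jm G τ s + E)) :
    ∃ i, (∀ j, E i j = 0) ∧ ∃ j, E (τ i) j ≠ 0 := by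
  classical
  by_contra hcon
  have hcon' : ∀ i, (∀ j, E i j = 0) → ∀ j, E (τ i) j = 0 := by
    intro i hi j
    by_contra h
    exact hcon ⟨i, hi, j, h⟩
  set S : ι → ZMod 2 := fun i => if (∀ j, E i j = 0) then 0 else 1 with hSd
  have hsodd : ∀ i, ((s i : ℤ) : ZMod 2) = 1 := by
    intro i
    rcases mul_self_eq_one_iff.1 (hS.sq i) with h | h <;> rw [h] <;> decide
  have hiff : ∀ i, (∀ j, E (τ i) j = 0) ↔ (∀ j, E i j = 0) := by
    intro i
    constructor
    · intro h
      have := hcon' (τ i) h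
      rwa [hS.inv] at this
    · exact hcon' i
  have hSτ : ∀ i, S (τ i) = S i := by
    intro i
    simp only [hSd]
    rw [if_congr (hiff i) rfl rfl]
  obtain ⟨A, hA⟩ := hu
  set M : (Matrix ι ι (ZMod 2))ˣ := Units.map (mpm (au G)) A with hM
  have hMv : (M : Matrix ι ι (ZMod 2)) *ᵥ S = 0 := by
    funext i
    have h2 : ∀ j, (M : Matrix ι ι (ZMod 2)) i j = (if j = τ i then 1 else 0) + au G (E i j) := by
      intro j
      change au G ((A : Matrix ι ι (MonoidAlgebra ℤ G)) i j) = _
      rw [hA, Matrix.add_apply, map_add]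
      congr 1
      unfold Jm
      split_ifs
      · rw [map_zsmul, map_one, zsmul_one, hsodd]
      · exact map_zero _
    simp only [Matrix.mulVec, dotProduct, Pi.zero_apply]
    rw [Finset.sum_congr rfl fun j _ => by rw [h2 j, add_mul], Finset.sum_add_distrib]
    have h3 : ∑ j, (if j = τ i then (1 : ZMod 2) else 0) * S j = S i := by
      rw [Finset.sum_eq_single (τ i) (fun j _ hj => by rw [if_neg hj, zero_mul])
        (fun h => absurd (Finset.mem_univ _) h), if_pos rfl, one_mul, hSτ]
    rw [h3]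
    rcases hE.row i with h4 | ⟨j, g, δ, hδ, hj, hk⟩
    · have h5 : S i = 0 := if_pos h4
      rw [h5, Finset.sum_eq_zero fun j _ => by rw [h4 j, map_zero, zero_mul], add_zero]
    · have hδ2 : ((δ : ℤ) : ZMod 2) = 1 := by rcases hδ with rfl | rfl <;> decide
      have hδ0 : δ ≠ 0 := by rcases hδ with rfl | rfl <;> decide
      have hEij : E i j ≠ 0 := by
        rw [hj]
        intro h
        have := congrArg (fun x => x.coeff g) h
        simp at this
        exact hδ0 this
      have h5 : S i = 1 := if_neg fun h => hEij (h j)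
      have h6 : S j = 1 := by
        refine if_neg fun h => hEij ?_
        have h7 := hE.sym j i
        rw [h i, bar_zero] at h7
        have h8 : ε • (ε • E i j) = 0 := by rw [← h7, smul_zero]
        rwa [smul_smul, hεε, one_smul] at h8
      rw [Finset.sum_eq_single j (fun k _ hkj => by rw [hk k hkj, map_zero, zero_mul])
        (fun h => absurd (Finset.mem_univ _) h), hj, au_single, hδ2, h5, h6]
      decide
  have h2 : (↑M⁻¹ : Matrix ι ι (ZMod 2)) *ᵥ ((M : Matrix ι ι (ZMod 2)) *ᵥ S) = S := by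
    rw [Matrix.mulVec_mulVec, Units.inv_mul, Matrix.one_mulVec]
  rw [hMv, Matrix.mulVec_zero] at h2
  apply hne
  ext1 i j
  have h3 : S i = 0 := by rw [← h2]; rfl
  by_contra h4
  have h5 : S i = 1 := if_neg fun h => h4 (h j)
  rw [h5] at h3
  exact one_ne_zero h3

theorem conj_entry (B : Matrix ι ι (MonoidAlgebra ℤ G)) (x e : ι) (w : MonoidAlgebra ℤ G)
    (i j : ι) :
    ((1 + Matrix.single x e w : Matrix ι ι (MonoidAlgebra ℤ G)) * B
      * adj (1 + Matrix.single x e w : Matrix ι ι (MonoidAlgebra ℤ G))) i j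
      = B i j + (if i = x then w * B e j else 0) + (if j = x then B i e * bar w else 0)
        + (if i = x then (if j = x then w * B e e * bar w else 0) else 0) := by
  have h1 : adj (1 + Matrix.single x e w : Matrix ι ι (MonoidAlgebra ℤ G))
      = 1 + Matrix.single e x (bar w) := by
    rw [adj_add, adj_one]
    congr 1
    ext1 i j
    rw [adj_apply, Matrix.single_apply, Matrix.single_apply]
    by_cases h : x = j ∧ e = i
    · rw [if_pos h, if_pos ⟨h.2, h.1⟩]
    · rw [if_neg h, if_neg fun h' => h ⟨h'.2, h'.1⟩, bar_zero]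
  have h2 : ∀ (M : Matrix ι ι (MonoidAlgebra ℤ G)) (i j : ι),
      (Matrix.single x e w * M) i j = if i = x then w * M e j else 0 := by
    intro M i j
    by_cases h : i = x
    · subst h; simp
    · rw [if_neg h]; simp [Matrix.single_mul_apply_of_ne, h]
  have h3 : ∀ (M : Matrix ι ι (MonoidAlgebra ℤ G)) (i j : ι),
      (M * Matrix.single e x (bar w)) i j = if j = x then M i e * bar w else 0 := by
    intro M i j
    by_cases h : j = x
    · subst h; simp
    · rw [if_neg h]; simp [Matrix.mul_single_apply_of_ne, h]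
  rw [h1, Matrix.add_mul, Matrix.one_mul, Matrix.mul_add, Matrix.mul_one, Matrix.add_mul,
    Matrix.add_apply, Matrix.add_apply, Matrix.add_apply, h2, h3, h3, h2]
  by_cases hi : i = x <;> by_cases hj : j = x <;> simp [hi, hj, add_assoc]

/-- `E` without the entries `(f, x)` and `(x, f)` -/
noncomputable def cut (E : Matrix ι ι (MonoidAlgebra ℤ G)) (f x : ι) : Matrix ι ι (MonoidAlgebra ℤ G) :=
  fun i j => if (i = f ∧ j = x) ∨ (i = x ∧ j = f) then 0 else E i j

theorem bar_smul' (z : ℤ) (x : MonoidAlgebra ℤ G) : bar (z • x) = z • bar x := bar_zsmul z x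

theorem Pert.sym' {ε : ℤ} (hεε : ε * ε = 1) {E : Matrix ι ι (MonoidAlgebra ℤ G)} (hE : Pert ε E)
    {i j : ι} (h : E i j = 0) : E j i = 0 := by
  have h1 := hE.sym i j
  rw [h, bar_zero] at h1
  have h2 : ε • (ε • E j i) = 0 := by rw [← h1, smul_zero]
  rwa [smul_smul, hεε, one_smul] at h2

theorem cut_pert {ε : ℤ} (E : Matrix ι ι (MonoidAlgebra ℤ G)) (hE : Pert ε E) (f x : ι) :
    Pert ε (cut E f x) := by
  constructor
  · intro i
    rcases hE.row i with h | ⟨j, g, δ, hδ, hj, hk⟩
    · left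
      intro j
      unfold cut
      split_ifs
      · rfl
      · exact h j
    · by_cases hc : (i = f ∧ j = x) ∨ (i = x ∧ j = f)
      · left
        intro k
        unfold cut
        by_cases hkj : k = j
        · subst hkj; rw [if_pos hc]
        · split_ifs
          · rfl
          · exact hk k hkj
      · right
        refine ⟨j, g, δ, hδ, ?_, fun k hkj => ?_⟩
        · unfold cut; rw [if_neg hc, hj]
        · unfold cut
          split_ifs
          · rfl
          · exact hk k hkj
  · intro i j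
    unfold cut
    by_cases hc : (i = f ∧ j = x) ∨ (i = x ∧ j = f)
    · have hc' : (j = f ∧ i = x) ∨ (j = x ∧ i = f) := by tauto
      rw [if_pos hc, if_pos hc', bar_zero, smul_zero]
    · have hc' : ¬ ((j = f ∧ i = x) ∨ (j = x ∧ i = f)) := by tauto
      rw [if_neg hc, if_neg hc']
      exact hE.sym i j
  · intro i
    unfold cut
    split_ifs
    · exact ⟨0, by rw [bar_zero, smul_zero, add_zero]⟩
    · exact hE.even i

theorem step {ε : ℤ} (hεε : ε * ε = 1) {τ : ι → ι} {s : ι → ℤ} (hS : Std ε τ s)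
    (E : Matrix ι ι (MonoidAlgebra ℤ G)) (hE : Pert ε E) (e : ι) (he : ∀ j, E e j = 0)
    (hf : ∃ j, E (τ e) j ≠ 0) :
    ∃ (P E' : Matrix ι ι (MonoidAlgebra ℤ G)), P ∈ El (R := MonoidAlgebra ℤ G) ι ∧
      P * (Jm G τ s + E) * adj P = Jm G τ s + E' ∧ Pert ε E' ∧
      {i | ∃ j, E' i j ≠ 0}.ncard < {i | ∃ j, E i j ≠ 0}.ncard := by
  classical
  obtain ⟨f, hfd⟩ : ∃ f, f = τ e := ⟨_, rfl⟩
  rw [← hfd] at hf
  have hfe : f ≠ e := by rw [hfd]; exact hS.ne e
  have hsf : s f = ε * s e := by rw [hfd]; exact hS.sgn e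
  have hEe : ∀ i, E i e = 0 := fun i => hE.sym' hεε (he i)
  obtain ⟨x, g, δ, hδ, hx, hk⟩ : ∃ (x : ι) (g : G) (δ : ℤ), (δ = 1 ∨ δ = -1) ∧
      E f x = MonoidAlgebra.single g δ ∧ ∀ k, k ≠ x → E f k = 0 := by
    rcases hE.row f with h | h
    · obtain ⟨j, hj⟩ := hf
      exact absurd (h j) hj
    · exact h
  have hEfx : E f x ≠ 0 := by
    obtain ⟨j, hj⟩ := hf
    by_cases h : j = x
    · rwa [h] at hj
    · exact absurd (hk j h) hj
  have hxe : x ≠ e := by
    rintro rfl
    exact hEfx (hEe f)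
  -- the entries of `B` in the row and in the column of `e`
  have hBe : ∀ j, (Jm G τ s + E) e j = if j = f then (s e) • (1 : MonoidAlgebra ℤ G) else 0 := by
    intro j
    rw [Matrix.add_apply, he, add_zero, hfd]
    rfl
  have hBe' : ∀ i, (Jm G τ s + E) i e = if i = f then (s f) • (1 : MonoidAlgebra ℤ G) else 0 := by
    intro i
    rw [Matrix.add_apply, hEe, add_zero]
    unfold Jm
    by_cases h : i = f
    · subst h
      rw [if_pos rfl, if_pos (by rw [hfd, hS.inv])]
    · rw [if_neg h, if_neg]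
      intro h'
      apply h
      rw [hfd, h', hS.inv]
  have hBee : (Jm G τ s + E) e e = 0 := by rw [hBe, if_neg hfe.symm]
  have hse := hS.sq e
  obtain ⟨y, hy⟩ := hE.even f
  have main : ∃ w : MonoidAlgebra ℤ G,
      (1 + Matrix.single x e w : Matrix ι ι (MonoidAlgebra ℤ G)) * (Jm G τ s + E)
        * adj (1 + Matrix.single x e w : Matrix ι ι (MonoidAlgebra ℤ G))
        = Jm G τ s + cut E f x := by
    by_cases hxf : x = f
    · subst hxf
      refine ⟨-(s e) • y, ?_⟩
      ext1 i j
      rw [conj_entry, hBe, hBe', hBee, Matrix.add_apply, Matrix.add_apply]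
      unfold cut
      by_cases hi : i = x <;> by_cases hj : j = x
      · subst hi; subst hj
        rw [if_pos rfl, if_pos rfl, if_pos rfl, if_pos (Or.inl ⟨rfl, rfl⟩), hy, hsf, mul_zero,
          zero_mul, if_pos rfl, if_pos rfl, if_pos rfl, bar_smul', mul_smul_comm, mul_one,
          smul_mul_assoc, one_mul, smul_smul, smul_smul]
        have e1 : s e * -(s e) = -1 := by linarith
        have e2 : ε * s e * -(s e) = -ε := by linear_combination (-ε) * hse
        rw [e1, e2]
        simp only [neg_smul, one_smul, add_zero]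
        abel
      · rw [if_neg hj, if_neg (show ¬ ((i = x ∧ j = x) ∨ (i = x ∧ j = x)) by tauto)]
        simp [hj]
      · rw [if_neg (show ¬ ((i = x ∧ j = x) ∨ (i = x ∧ j = x)) by tauto)]
        simp [hi]
      · rw [if_neg (show ¬ ((i = x ∧ j = x) ∨ (i = x ∧ j = x)) by tauto)]
        simp [hi, hj]
    · refine ⟨-(s e) • E x f, ?_⟩
      ext1 i j
      rw [conj_entry, hBe, hBe', hBee, Matrix.add_apply, Matrix.add_apply]
      unfold cut
      have hfx : f ≠ x := fun h => hxf h.symm
      by_cases hi : i = x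
      · subst hi
        by_cases hj : j = f
        · subst hj
          rw [if_pos (Or.inr ⟨rfl, rfl⟩), if_pos rfl, if_pos rfl, if_neg hfx, if_pos rfl,
            if_neg hfx, mul_smul_comm, mul_one, smul_smul]
          have e1 : s e * -(s e) = -1 := by linarith
          rw [e1]
          simp
        · rw [if_neg (show ¬ ((i = f ∧ j = i) ∨ (i = i ∧ j = f)) by tauto)]
          simp [hj, hxf]
      · by_cases hj : j = x
        · subst hj
          by_cases hif : i = f
          · subst hif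
            rw [if_pos (Or.inl ⟨rfl, rfl⟩), if_neg hi, if_pos rfl, if_pos rfl, if_neg hi,
              bar_smul', hE.sym, hsf, smul_mul_assoc, one_mul, smul_smul, smul_smul]
            have e1 : ε * s e * (-(s e) * ε) = -1 := by
              linear_combination (-(s e) ^ 2) * hεε - hse
            have e1' : ε * s e * -s e * ε = -1 := by
              linear_combination (-(s e) ^ 2) * hεε - hse
            first
              | rw [e1]
              | rw [e1']
            simp
          · rw [if_neg (show ¬ ((i = f ∧ j = j) ∨ (i = j ∧ j = f)) by tauto)]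
            simp [hi, hif]
        · rw [if_neg (show ¬ ((i = f ∧ j = x) ∨ (i = x ∧ j = f)) by tauto)]
          simp [hi, hj]
  obtain ⟨w, hw⟩ := main
  refine ⟨_, cut E f x, el_transv x e hxe w, hw, cut_pert E hE f x, ?_⟩
  apply Set.ncard_lt_ncard _ (Set.toFinite _)
  refine ⟨fun i hi => ?_, fun h => ?_⟩
  · obtain ⟨j, hj⟩ := hi
    refine ⟨j, fun h => hj ?_⟩
    unfold cut
    split_ifs
    · rfl
    · exact h
  · obtain ⟨j, hj⟩ := h (show f ∈ {i | ∃ j, E i j ≠ 0} from ⟨x, hEfx⟩)
    apply hj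
    unfold cut
    by_cases hjx : j = x
    · rw [if_pos (Or.inl ⟨rfl, hjx⟩)]
    · split_ifs
      · rfl
      · exact hk j hjx

/-- a nonsingular form close to the standard form is elementarily isometric to it -/
theorem near_std {ε : ℤ} (hεε : ε * ε = 1) {τ : ι → ι} {s : ι → ℤ} (hS : Std ε τ s) :
    ∀ (N : ℕ) (E : Matrix ι ι (MonoidAlgebra ℤ G)), {i | ∃ j, E i j ≠ 0}.ncard ≤ N →
      Pert ε E → IsUnit (Jm G τ s + E) →
      ∃ P ∈ El (R := MonoidAlgebra ℤ G) ι, P * (Jm G τ s + E) * adj P = Jm G τ s := by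
  intro N
  induction N with
  | zero =>
    intro E hN _ _
    refine ⟨1, one_mem _, ?_⟩
    have h0 : {i | ∃ j, E i j ≠ 0} = ∅ :=
      (Set.ncard_eq_zero (Set.toFinite _)).1 (Nat.le_zero.1 hN)
    have hE0 : E = 0 := by
      ext1 i j
      by_contra h
      have : i ∈ ({i | ∃ j, E i j ≠ 0} : Set ι) := ⟨j, h⟩
      rw [h0] at this
      exact this
    rw [hE0, add_zero, adj_one, Matrix.one_mul, Matrix.mul_one]
  | succ N ih =>
    intro E hN hE hu
    by_cases h0 : E = 0
    · exact ⟨1, one_mem _, by rw [h0, add_zero, adj_one, Matrix.one_mul, Matrix.mul_one]⟩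
    obtain ⟨e, he, hf⟩ := exists_pivot hεε hS E hE h0 hu
    obtain ⟨P, E', hP, hPE, hE', hlt⟩ := step hεε hS E hE e he hf
    obtain ⟨u, hu1, -⟩ := El_unit P hP
    have hadj : IsUnit (adj P) := by
      refine ⟨⟨adj u.val, adj u⁻¹.val, ?_, ?_⟩, by change adj u.val = adj P; rw [hu1]⟩
      · rw [← adj_mul, Units.inv_mul, adj_one]
      · rw [← adj_mul, Units.mul_inv, adj_one]
    have hu' : IsUnit (Jm G τ s + E') := by
      rw [← hPE, ← hu1]
      rw [← hu1] at hadj
      exact (u.isUnit.mul hu).mul hadj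
    obtain ⟨Q, hQ, hQE⟩ := ih E' (by omega) hE' hu'
    refine ⟨Q * P, mul_mem hQ hP, ?_⟩
    rw [adj_mul]
    calc Q * P * (Jm G τ s + E) * (adj P * adj Q)
        = Q * (P * (Jm G τ s + E) * adj P) * adj Q := by simp only [Matrix.mul_assoc]
      _ = Jm G τ s := by rw [hPE, hQE]

end Pool.Agent.V1132.CN
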