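import Pool.Agent.V1132.CN.Near
import Pool.Agent.V1132.CN.Forms

set_option autoImplicit false
set_option linter.unusedSectionVars false

/-! Quadratic forms at distance less than `√2` from the hyperbolic form. -/

namespace Pool.Agent.V1132.CN

open Matrix TH57.Thr TH6.LF

variable {G : Type} [Group G]

section hyp

variable {κ : Type} [Fintype κ] [DecidableEq κ]

/-- the signs of the standard form -/
def sg (ε : ℤ) : κ ⊕ κ → ℤ := Sum.elim (fun _ => 1) (fun _ => ε)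

theorem std_hyp {ε : ℤ} (hεε : ε * ε = 1) : Std ε (Sum.swap : κ ⊕ κ → κ ⊕ κ) (sg ε) where
  inv := Sum.swap_swap
  ne := by rintro (i | i) <;> simp
  sq := by rintro (i | i) <;> simp [sg, hεε]
  sgn := by rintro (i | i) <;> simp [sg, hεε]

theorem Jm_hyp (ε : ℤ) : Jm G (Sum.swap : κ ⊕ κ → κ ⊕ κ) (sg ε)
    = hyp (MonoidAlgebra ℤ G) κ + ε • adj (hyp (MonoidAlgebra ℤ G) κ) := by
  have h1 : adj (hyp (MonoidAlgebra ℤ G) κ) = fromBlocks 0 0 1 0 := by
    unfold hyp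
    simp only [adj_fromBlocks, adj_zero, adj_one]
  rw [h1]
  unfold hyp
  rw [Matrix.fromBlocks_smul, Matrix.fromBlocks_add]
  ext1 i j
  rcases i with i | i <;> rcases j with j | j
  · simp [Jm, -zsmul_eq_mul]
  · simp [Jm, sg, Matrix.one_apply, eq_comm, -zsmul_eq_mul]
  · change (if (Sum.inl j : κ ⊕ κ) = Sum.swap (Sum.inr i) then ε • (1 : MonoidAlgebra ℤ G) else 0)
      = (0 : MonoidAlgebra ℤ G) + ε • ((1 : Matrix κ κ (MonoidAlgebra ℤ G)) i j)
    rw [Matrix.one_apply, zero_add, Sum.swap_inr]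
    by_cases h : i = j
    · subst h; rw [if_pos rfl, if_pos rfl]
    · rw [if_neg h, smul_zero, if_neg fun h' => h (Sum.inl_injective h').symm]
  · simp [Jm, -zsmul_eq_mul]

theorem symm_conj (ε : ℤ) {ι : Type} [Fintype ι] (P ψ : Matrix ι ι (MonoidAlgebra ℤ G)) :
    P * ψ * adj P + ε • adj (P * ψ * adj P) = P * (ψ + ε • adj ψ) * adj P := by
  rw [adj_mul, adj_mul, adj_adj, Matrix.mul_add, Matrix.add_mul, Matrix.mul_smul,
    Matrix.smul_mul, Matrix.mul_assoc P (adj ψ)]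

theorem adj_smul_add {ε : ℤ} (hεε : ε * ε = 1) {ι : Type}
    (δ : Matrix ι ι (MonoidAlgebra ℤ G)) : adj (δ + ε • adj δ) = ε • (δ + ε • adj δ) := by
  rw [adj_add, adj_zsmul, adj_adj, smul_add, smul_smul, hεε, one_smul, add_comm]

/-- **All groups**: the adjoint of a nonsingular form at distance less than `√2` from the
hyperbolic form is elementarily isometric to that of the hyperbolic form. -/
theorem near_adj {ε : ℤ} (hεε : ε * ε = 1) (ψ : Matrix (κ ⊕ κ) (κ ⊕ κ) (MonoidAlgebra ℤ G))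
    (hu : IsUnit (ψ + ε • adj ψ)) (c : ℝ) (hc : c ^ 2 < 2)
    (hN : NormLE ((ψ - hyp (MonoidAlgebra ℤ G) κ)
      + ε • adj (ψ - hyp (MonoidAlgebra ℤ G) κ)) c) :
    ∃ P ∈ El (R := MonoidAlgebra ℤ G) (κ ⊕ κ), P * (ψ + ε • adj ψ) * adj P
      = hyp (MonoidAlgebra ℤ G) κ + ε • adj (hyp (MonoidAlgebra ℤ G) κ) := by
  set δ := ψ - hyp (MonoidAlgebra ℤ G) κ with hδ
  have hE : Pert ε (δ + ε • adj δ) := by
    refine ⟨rowOne_of_norm _ c hc hN, fun i j => ?_, fun i => ⟨δ i i, ?_⟩⟩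
    · have h1 := congrFun (congrFun (adj_smul_add hεε δ) j) i
      rw [adj_apply] at h1
      exact h1
    · rw [Matrix.add_apply]; rfl
  have hsum : Jm G (Sum.swap : κ ⊕ κ → κ ⊕ κ) (sg ε) + (δ + ε • adj δ) = ψ + ε • adj ψ := by
    rw [Jm_hyp, hδ, adj_sub, smul_sub]
    abel
  obtain ⟨P, hP, h1⟩ := near_std hεε (std_hyp hεε) _ (δ + ε • adj δ) le_rfl hE
    (by rw [hsum]; exact hu)
  rw [hsum, Jm_hyp] at h1
  exact ⟨P, hP, h1⟩

/-- The diagonal matrix of the integers `D i`. -/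
noncomputable def dgZ {ι : Type} [DecidableEq ι] (D : ι → ℤ) : Matrix ι ι (MonoidAlgebra ℤ G) :=
  Matrix.diagonal fun i => MonoidAlgebra.single 1 (D i)

theorem adj_dgZ {ι : Type} [DecidableEq ι] (D : ι → ℤ) : adj (dgZ (G := G) D) = dgZ D := by
  ext1 i j
  rw [adj_apply, dgZ, Matrix.diagonal_apply, Matrix.diagonal_apply]
  by_cases h : i = j
  · subst h; simp
  · rw [if_neg h, if_neg (Ne.symm h), bar_zero]

/-- forms with vanishing adjoint -/
theorem alt_form {ι : Type} [DecidableEq ι]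
    (htf : ∀ g : G, ∀ n : ℕ, 0 < n → g ^ n = 1 → g = 1) {ε : ℤ} (hε : ε = 1 ∨ ε = -1)
    (δ : Matrix ι ι (MonoidAlgebra ℤ G)) (h : δ + ε • adj δ = 0) :
    ∃ (D : ι → ℤ) (χ : Matrix ι ι (MonoidAlgebra ℤ G)), (∀ i, D i = 0 ∨ D i = 1) ∧
      (ε = 1 → ∀ i, D i = 0) ∧ δ = dgZ D + (χ - ε • adj χ) := by
  classical
  have hco : ∀ i j g, (δ i j).coeff g + ε * (δ j i).coeff g⁻¹ = 0 := by
    intro i j g
    have h1 := congrArg (fun x : MonoidAlgebra ℤ G => x.coeff g) (congrFun (congrFun h i) j)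
    simp only [Matrix.add_apply, coeff_add', Matrix.smul_apply, coeff_zsmul', coeff_adj,
      Matrix.zero_apply] at h1
    simpa using h1
  have hd : ε = 1 → ∀ i, (δ i i).coeff 1 = 0 := by
    intro h1 i
    have h2 := hco i i 1
    rw [inv_one, h1] at h2
    omega
  have hno : ∀ g : G, g = g⁻¹ → g = 1 := fun g hg => htf g 2 two_pos (by
    rw [sq]; nth_rewrite 2 [hg]; exact mul_inv_cancel g)
  have hdg : ∀ (D : ι → ℤ) (i j : ι) (g : G), ((dgZ D : Matrix ι ι (MonoidAlgebra ℤ G)) i j).coeff g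
      = if i = j ∧ g = 1 then D i else 0 := by
    intro D i j g
    rw [dgZ, Matrix.diagonal_apply]
    by_cases h1 : i = j
    · rw [if_pos h1, MonoidAlgebra.coeff_single, Finsupp.single_apply]
      by_cases h2 : g = 1
      · rw [if_pos h2.symm, if_pos ⟨h1, h2⟩]
      · rw [if_neg (Ne.symm h2), if_neg fun h3 => h2 h3.2]
    · rw [if_neg h1, if_neg fun h3 => h1 h3.1]
      simp
  obtain ⟨χ, hχ⟩ := exists_alt hno ε (δ - dgZ fun i => (δ i i).coeff 1)
    (fun i j g => by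
      rw [Matrix.sub_apply, Matrix.sub_apply, coeff_sub', coeff_sub', hdg, hdg]
      by_cases h1 : i = j ∧ g = 1
      · obtain ⟨rfl, rfl⟩ := h1
        have h2 := hco i i 1
        rw [inv_one] at h2
        rw [if_pos ⟨rfl, rfl⟩, inv_one, if_pos ⟨rfl, rfl⟩]
        rcases hε with h3 | h3
        · rw [hd h3]; ring
        · rw [h3]; ring
      · rw [if_neg h1, if_neg (fun h2 => h1 ⟨h2.1.symm, inv_eq_one.1 h2.2⟩)]
        have := hco i j g
        linarith)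
    (fun i => by rw [Matrix.sub_apply, coeff_sub', hdg, if_pos ⟨rfl, rfl⟩, sub_self])
  rcases hε with h3 | h3
  · refine ⟨fun _ => 0, χ, fun _ => Or.inl rfl, fun _ _ => rfl, ?_⟩
    have h4 : (dgZ fun i => (δ i i).coeff 1 : Matrix ι ι (MonoidAlgebra ℤ G)) = dgZ fun _ => 0 := by
      congr 1
      funext i
      exact hd h3 i
    rw [← h4, ← hχ]
    abel
  · refine ⟨fun i => (δ i i).coeff 1 % 2, χ + dgZ fun i => (δ i i).coeff 1 / 2,
      fun i => Int.emod_two_eq_zero_or_one _, fun h => by omega, ?_⟩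
    have h4 : (dgZ fun i => (δ i i).coeff 1 : Matrix ι ι (MonoidAlgebra ℤ G))
        = dgZ (fun i => (δ i i).coeff 1 % 2) + (dgZ (fun i => (δ i i).coeff 1 / 2)
          + dgZ (fun i => (δ i i).coeff 1 / 2)) := by
      ext i j g
      rw [Matrix.add_apply, Matrix.add_apply, coeff_add', coeff_add', hdg, hdg, hdg]
      split_ifs
      · omega
      · rfl
    have h5 : δ = (dgZ fun i => (δ i i).coeff 1) + (χ - ε • adj χ) := by
      rw [← hχ]; abel
    rw [adj_add, adj_dgZ]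
    conv_lhs => rw [h5, h4]
    rw [h3]
    simp only [neg_smul, one_smul]
    abel

/-- **Torsion-free groups**: a nonsingular form at distance less than `√2` from the hyperbolic form
is elementarily isometric to it, up to the Arf part if `ε = -1`. -/
theorem near_hyp (htf : ∀ g : G, ∀ n : ℕ, 0 < n → g ^ n = 1 → g = 1) {ε : ℤ}
    (hε : ε = 1 ∨ ε = -1) (ψ : Matrix (κ ⊕ κ) (κ ⊕ κ) (MonoidAlgebra ℤ G))
    (hu : IsUnit (ψ + ε • adj ψ)) (c : ℝ) (hc : c ^ 2 < 2)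
    (hN : NormLE ((ψ - hyp (MonoidAlgebra ℤ G) κ)
      + ε • adj (ψ - hyp (MonoidAlgebra ℤ G) κ)) c) :
    ∃ P ∈ El (R := MonoidAlgebra ℤ G) (κ ⊕ κ), ∃ (D : κ ⊕ κ → ℤ)
      (χ : Matrix (κ ⊕ κ) (κ ⊕ κ) (MonoidAlgebra ℤ G)), (∀ i, D i = 0 ∨ D i = 1) ∧
      (ε = 1 → ∀ i, D i = 0) ∧
      P * ψ * adj P = (hyp (MonoidAlgebra ℤ G) κ + dgZ D) + (χ - ε • adj χ) := by
  have hεε : ε * ε = 1 := by rcases hε with rfl | rfl <;> norm_num
  obtain ⟨P, hP, h1⟩ := near_adj hεε ψ hu c hc hN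
  have h2 : (P * ψ * adj P - hyp (MonoidAlgebra ℤ G) κ)
      + ε • adj (P * ψ * adj P - hyp (MonoidAlgebra ℤ G) κ) = 0 := by
    rw [← symm_conj] at h1
    rw [adj_sub, smul_sub]
    have h3 : P * ψ * adj P - hyp (MonoidAlgebra ℤ G) κ + (ε • adj (P * ψ * adj P)
        - ε • adj (hyp (MonoidAlgebra ℤ G) κ)) = (P * ψ * adj P + ε • adj (P * ψ * adj P))
        - (hyp (MonoidAlgebra ℤ G) κ + ε • adj (hyp (MonoidAlgebra ℤ G) κ)) := by abel
    rw [h3, h1, sub_self]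
  obtain ⟨D, χ, hD1, hD2, h3⟩ := alt_form htf hε _ h2
  refine ⟨P, hP, D, χ, hD1, hD2, ?_⟩
  have h4 := sub_eq_iff_eq_add.1 h3
  rw [h4]
  abel

end hyp

section iso

variable {κ κ' : Type} [Fintype κ] [DecidableEq κ] [Fintype κ'] [DecidableEq κ']

theorem conj_alt (ε : ℤ) {ι : Type} [Fintype ι] (Q χ : Matrix ι ι (MonoidAlgebra ℤ G)) :
    Q * (χ - ε • adj χ) * adj Q = Q * χ * adj Q - ε • adj (Q * χ * adj Q) := by
  rw [adj_mul, adj_mul, adj_adj, Matrix.mul_sub, Matrix.sub_mul, Matrix.mul_smul,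
    Matrix.smul_mul, Matrix.mul_assoc Q (adj χ)]

/-- composition with an isometry on the right -/
theorem stabIsom_right (ε : ℤ) (ψ : Matrix κ κ (MonoidAlgebra ℤ G))
    (φ ω : Matrix κ' κ' (MonoidAlgebra ℤ G)) (h : StabIsom ε ψ φ)
    (Q : (Matrix κ' κ' (MonoidAlgebra ℤ G))ˣ) (χ' : Matrix κ' κ' (MonoidAlgebra ℤ G))
    (hQ : Q.val * φ * adj Q.val = ω + (χ' - ε • adj χ')) : StabIsom ε ψ ω := by
  obtain ⟨μ, ν, i1, i2, i3, i4, e, P, χ, hE⟩ := h
  let Q1 : (Matrix (κ' ⊕ (ν ⊕ ν)) (κ' ⊕ (ν ⊕ ν)) (MonoidAlgebra ℤ G))ˣ :=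
    Units.map (stm (ν ⊕ ν)) Q
  let X : Matrix (κ' ⊕ (ν ⊕ ν)) (κ' ⊕ (ν ⊕ ν)) (MonoidAlgebra ℤ G) := fromBlocks χ' 0 0 0
  have h1 : addHyp ν (Q.val * φ * adj Q.val) = addHyp ν ω + (X - ε • adj X) := by
    rw [hQ]
    simp only [X, adj_fromBlocks, adj_zero]
    unfold addHyp
    ext1 i j
    rcases i with i | i <;> rcases j with j | j <;> simp [-zsmul_eq_mul]
  have h2 : Q1.val * addHyp ν φ * adj Q1.val = addHyp ν ω + (X - ε • adj X) := by
    rw [← h1, addHyp_conj]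
    rfl
  refine ⟨μ, ν, i1, i2, i3, i4, e, Units.map (re e) Q1 * P,
    X.submatrix e e + (Units.map (re e) Q1).val * χ * adj (Units.map (re e) Q1).val, ?_⟩
  have h3 : (Units.map (re e) Q1).val = Q1.val.submatrix e e := rfl
  have h4 : (Units.map (re e) Q1).val * (addHyp ν φ).submatrix e e
      * adj (Units.map (re e) Q1).val = (addHyp ν ω + (X - ε • adj X)).submatrix e e := by
    rw [h3, adj_submatrix, Matrix.submatrix_mul_equiv, Matrix.submatrix_mul_equiv, h2]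
  have h6 : (addHyp ν ω + (X - ε • adj X)).submatrix e e
      = (addHyp ν ω).submatrix e e + (X.submatrix e e - ε • adj (X.submatrix e e)) := by
    rw [adj_submatrix]
    rfl
  calc (Units.map (re e) Q1 * P).val * addHyp μ ψ * adj (Units.map (re e) Q1 * P).val
      = (Units.map (re e) Q1).val * (P.val * addHyp μ ψ * adj P.val)
          * adj (Units.map (re e) Q1).val := by
        rw [Units.val_mul, adj_mul]
        simp only [Matrix.mul_assoc]
    _ = (Units.map (re e) Q1).val * (addHyp ν φ).submatrix e e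
          * adj (Units.map (re e) Q1).val + (Units.map (re e) Q1).val * (χ - ε • adj χ)
          * adj (Units.map (re e) Q1).val := by
        rw [hE, Matrix.mul_add, Matrix.add_mul]
    _ = _ := by
        rw [h4, conj_alt, h6, adj_add, smul_add]
        abel

theorem addHyp_symm (ε : ℤ) (μ : Type) [Fintype μ] [DecidableEq μ]
    (ψ : Matrix κ κ (MonoidAlgebra ℤ G)) :
    addHyp μ ψ + ε • adj (addHyp μ ψ) = fromBlocks (ψ + ε • adj ψ) 0 0
      (fromBlocks (0 : Matrix μ μ (MonoidAlgebra ℤ G)) 1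
        (ε • (1 : Matrix μ μ (MonoidAlgebra ℤ G))) 0) := by
  unfold addHyp
  rw [adj_fromBlocks, adj_fromBlocks, Matrix.fromBlocks_smul, Matrix.fromBlocks_smul,
    Matrix.fromBlocks_add, Matrix.fromBlocks_add]
  simp [adj_zero, adj_one]

theorem isUnit_hypBlock {ε : ℤ} (hεε : ε * ε = 1) (μ : Type) [Fintype μ] [DecidableEq μ] :
    IsUnit (fromBlocks (0 : Matrix μ μ (MonoidAlgebra ℤ G)) (1 : Matrix μ μ (MonoidAlgebra ℤ G))
        (ε • (1 : Matrix μ μ (MonoidAlgebra ℤ G))) (0 : Matrix μ μ (MonoidAlgebra ℤ G))) := by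
  refine ⟨⟨fromBlocks (0 : Matrix μ μ (MonoidAlgebra ℤ G)) (1 : Matrix μ μ (MonoidAlgebra ℤ G))
        (ε • (1 : Matrix μ μ (MonoidAlgebra ℤ G))) (0 : Matrix μ μ (MonoidAlgebra ℤ G)),
      fromBlocks (0 : Matrix μ μ (MonoidAlgebra ℤ G))
        (ε • (1 : Matrix μ μ (MonoidAlgebra ℤ G))) (1 : Matrix μ μ (MonoidAlgebra ℤ G))
        (0 : Matrix μ μ (MonoidAlgebra ℤ G)), ?_, ?_⟩, rfl⟩
  · rw [Matrix.fromBlocks_multiply, ← Matrix.fromBlocks_one]
    simp only [Matrix.mul_zero, Matrix.zero_mul, Matrix.mul_one, add_zero,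
      zero_add, Matrix.mul_smul, smul_smul, hεε, one_smul, smul_zero]
  · rw [Matrix.fromBlocks_multiply, ← Matrix.fromBlocks_one]
    simp only [Matrix.mul_zero, Matrix.zero_mul, Matrix.mul_one, add_zero,
      zero_add, Matrix.mul_smul, smul_smul, hεε, one_smul, smul_zero]

theorem isUnit_block {R : Type} [Ring R] {μ : Type} [Fintype μ] [DecidableEq μ]
    (A : Matrix κ κ R) (D : Matrix μ μ R) (h : IsUnit (fromBlocks A 0 0 D)) : IsUnit A := by
  obtain ⟨u, hu⟩ := h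
  have h1 : fromBlocks A 0 0 D * u⁻¹.val = 1 := by rw [← hu, Units.mul_inv]
  have h2 : u⁻¹.val * fromBlocks A 0 0 D = 1 := by rw [← hu, Units.inv_mul]
  rw [← Matrix.fromBlocks_toBlocks u⁻¹.val, Matrix.fromBlocks_multiply,
    ← Matrix.fromBlocks_one, Matrix.fromBlocks_inj] at h1 h2
  refine ⟨⟨A, u⁻¹.val.toBlocks₁₁, ?_, ?_⟩, rfl⟩
  · have := h1.1
    rwa [Matrix.zero_mul, add_zero] at this
  · have := h2.1
    rwa [Matrix.mul_zero, add_zero] at this

theorem isUnit_fromBlocks {R : Type} [Ring R] {μ : Type} [Fintype μ] [DecidableEq μ]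
    (A : Matrix κ κ R) (D : Matrix μ μ R) (hA : IsUnit A) (hD : IsUnit D) :
    IsUnit (fromBlocks A 0 0 D) := by
  obtain ⟨a, rfl⟩ := hA
  obtain ⟨d, rfl⟩ := hD
  refine ⟨⟨fromBlocks a.val 0 0 d.val, fromBlocks a⁻¹.val 0 0 d⁻¹.val, ?_, ?_⟩, rfl⟩
  · rw [Matrix.fromBlocks_multiply, ← Matrix.fromBlocks_one]
    simp
  · rw [Matrix.fromBlocks_multiply, ← Matrix.fromBlocks_one]
    simp

theorem isUnit_adj {ι : Type} [Fintype ι] [DecidableEq ι]
    (P : (Matrix ι ι (MonoidAlgebra ℤ G))ˣ) : IsUnit (adj P.val) := by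
  refine ⟨⟨adj P.val, adj P⁻¹.val, ?_, ?_⟩, rfl⟩
  · rw [← adj_mul, Units.inv_mul, adj_one]
  · rw [← adj_mul, Units.mul_inv, adj_one]

/-- stable isometry preserves nonsingularity -/
theorem StabIsom.nonsing {ε : ℤ} (hεε : ε * ε = 1) (ψ : Matrix κ κ (MonoidAlgebra ℤ G))
    (φ : Matrix κ' κ' (MonoidAlgebra ℤ G)) (h : StabIsom ε ψ φ) (hψ : IsUnit (ψ + ε • adj ψ)) :
    IsUnit (φ + ε • adj φ) := by
  obtain ⟨μ, ν, i1, i2, i3, i4, e, P, χ, hE⟩ := h
  have h1 : P.val * (addHyp μ ψ + ε • adj (addHyp μ ψ)) * adj P.val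
      = (addHyp ν φ + ε • adj (addHyp ν φ)).submatrix e e := by
    rw [← symm_conj, hE, adj_add, adj_sub, adj_zsmul, adj_adj, adj_submatrix, smul_add, smul_sub,
      smul_smul, hεε, one_smul]
    have h2 : (addHyp ν φ + ε • adj (addHyp ν φ)).submatrix e e
        = (addHyp ν φ).submatrix e e + ε • (adj (addHyp ν φ)).submatrix e e := rfl
    rw [h2]
    abel
  have h3 : IsUnit (P.val * (addHyp μ ψ + ε • adj (addHyp μ ψ)) * adj P.val) := by
    refine (P.isUnit.mul ?_).mul (isUnit_adj P)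
    rw [addHyp_symm]
    exact isUnit_fromBlocks _ _ hψ (isUnit_hypBlock hεε μ)
  rw [h1] at h3
  have h4 : IsUnit (addHyp ν φ + ε • adj (addHyp ν φ)) := by
    obtain ⟨u, hu⟩ := h3
    have h5 : addHyp ν φ + ε • adj (addHyp ν φ) = (Units.map (re e.symm) u).val := by
      change _ = u.val.submatrix e.symm e.symm
      rw [hu, Matrix.submatrix_submatrix]
      simp
    rw [h5]
    exact Units.isUnit _
  rw [addHyp_symm] at h4
  exact isUnit_block _ _ h4

end iso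

end Pool.Agent.V1132.CN
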